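import Pool.Graph.R_seed8.Y791.BC.AlgA

/-!
# Reduction systems and statements of independent pieces (not results)
-/

set_option autoImplicit false

open Polynomial IsDedekindDomain NumberField

namespace Pool.Agent.Helper39.FT

open Pool.Agent.TH954 Pool.Agent.Y791.BF Pool.Agent.Y791.BC.Leg

/-- Embeddings `i m` of `K` in completions of number fields, the residue field of which has `p ^ m`
elements, with the same reduction `r` on the elements of `K` which are integral. -/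
structure RSys (K : Type) [Field K] : Type 1 where
  p : ℕ
  [hp : Fact p.Prime]
  B : Subring K
  r : B →+* ZMod p
  i : ℕ → PlF K
  res : ∀ m, ball1 (i m).Lv →+* AlgebraicClosure (ZMod p)
  res_zero : ∀ m y, res m y = 0 ↔ ‖(y : (i m).Lv)‖ < 1
  res_range : ∀ m, 0 < m → ∀ x, (∃ y, res m y = x) ↔ x ^ p ^ m = x
  compat : ∀ m (c : B), ∃ h : ‖(i m).φ (c : K)‖ ≤ 1,
    res m ⟨(i m).φ (c : K), h⟩ = algebraMap (ZMod p) (AlgebraicClosure (ZMod p)) (r c)
  val : ∀ c : K, c ∈ B ∨ ∃ h : c⁻¹ ∈ B, r ⟨c⁻¹, h⟩ = 0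

attribute [instance] RSys.hp

/-- SYS: existence of reduction systems -/
def S_SYS : Prop :=
  ∀ (K : Type) [Field K] [CharZero K], Algebra.EssFiniteType ℚ K → ∀ (Z : Finset K) (n0 : ℕ),
    ∃ D : RSys K, n0 < D.p ∧ ∀ z ∈ Z, z ≠ 0 → ∃ h : z ∈ D.B, D.r ⟨z, h⟩ ≠ 0

/-- NRM: a rational function over `F_p` all values of which at almost all points of the finite
fields are `N`-th powers in them has multiplicities divisible by `N`. -/
def S_NRM : Prop :=
  ∀ (p : ℕ) [Fact p.Prime] (N : ℕ), 0 < N → ¬ p ∣ N →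
  ∀ (P Q S : (ZMod p)[X]), P ≠ 0 → Q ≠ 0 → S ≠ 0 →
  (∀ m : ℕ, 0 < m → ∀ a : AlgebraicClosure (ZMod p), a ^ p ^ m = a → aeval a S ≠ 0 →
    ∃ g : AlgebraicClosure (ZMod p), g ^ p ^ m = g ∧ aeval a P = aeval a Q * g ^ N) →
  ∀ b : AlgebraicClosure (ZMod p),
    (N : ℤ) ∣ ((P.map (algebraMap (ZMod p) (AlgebraicClosure (ZMod p)))).rootMultiplicity b : ℤ) -
      (Q.map (algebraMap (ZMod p) (AlgebraicClosure (ZMod p)))).rootMultiplicity b

/-- MAS: the bound of Mason and Stothers, for functions the multiplicities of which are those of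
given polynomials modulo four -/
def S_MAS : Prop :=
  ∀ (k : Type) [Field k] (E : Type) [Field E] [IsAlgClosed E] [Algebra k E]
    (U V A H : k[X]), IsCoprime U V → derivative U * V - U * derivative V ≠ 0 → A ≠ 0 → H ≠ 0 →
  (∀ b : E, (4 : ℤ) ∣ ((U.map (algebraMap k E)).rootMultiplicity b : ℤ) -
      (V.map (algebraMap k E)).rootMultiplicity b -
      (A.map (algebraMap k E)).rootMultiplicity b) →
  (∀ b : E, (4 : ℤ) ∣ (((U - V).map (algebraMap k E)).rootMultiplicity b : ℤ) -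
      (V.map (algebraMap k E)).rootMultiplicity b -
      (H.map (algebraMap k E)).rootMultiplicity b) →
  U.natDegree ≤ 4 * (A.natDegree + H.natDegree) ∧ V.natDegree ≤ 4 * (A.natDegree + H.natDegree)

/-- INT: compatible multiplicities modulo all `N` which are small integers modulo each `N` are those
of a quotient of polynomials. (`mu A ρ` is the multiplicity of the root `ρ` of `A` in the algebraic
closure.) -/
def S_INT : Prop :=
  ∀ (K : Type) [Field K] [CharZero K] (A : ℕ → K[X]) (B0 : ℕ), (∀ N : ℕ, 0 < N → A N ≠ 0) →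
  (∀ N M : ℕ, 0 < N → 0 < M → ∀ ρ : AlgebraicClosure K,
    (N : ℤ) ∣ (Types.mu (A (N * M)) ρ : ℤ) - Types.mu (A N) ρ) →
  (∀ N : ℕ, 0 < N → ∀ ρ : AlgebraicClosure K, ∃ n : ℤ, |n| ≤ B0 ∧ (N : ℤ) ∣ (Types.mu (A N) ρ : ℤ) - n) →
  ∃ G1 G2 : K[X], G1 ≠ 0 ∧ G2 ≠ 0 ∧ ∀ N : ℕ, 0 < N → ∃ (d : K) (h : K[X]), d ≠ 0 ∧ h ≠ 0 ∧
    A N * G2 * G1 ^ (N - 1) = C d * h ^ N

/-- LFT: at a good reduction system a multiplicity over the algebraic closure of `K` is a
multiplicity of the reduction. -/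
def S_LFT : Prop :=
  ∀ (K : Type) [Field K] [CharZero K] (A : K[X]), A ≠ 0 → ∀ ρ : AlgebraicClosure K,
  ∃ Z : Finset K, ∀ D : RSys K, (∀ z ∈ Z, z ≠ 0 → ∃ h : z ∈ D.B, D.r ⟨z, h⟩ ≠ 0) →
    ∀ A' : D.B[X], A'.map D.B.subtype = A →
    ∃ b : AlgebraicClosure (ZMod D.p), Types.mu A ρ =
      (A'.map ((algebraMap (ZMod D.p) (AlgebraicClosure (ZMod D.p))).comp D.r)).rootMultiplicity b

/-- ALG: values of a function whose classes are those of rational functions up to constants are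
algebraic. `V` gives the values of the function; the class of `V` is `G1 / G2`, that of `V - 1` is
`G3 / G4`, up to constants, and these are not both constant. -/
def S_ALG : Prop :=
  ∀ (K : Type) [Field K] [CharZero K], Algebra.EssFiniteType ℚ K →
  ∀ (i : PlF K) (V : i.Lv → Option i.Lv) (G1 G2 G3 G4 : K[X]), G1 ≠ 0 → G2 ≠ 0 → G3 ≠ 0 → G4 ≠ 0 →
  ((∀ c : K, C c * G1 ≠ G2) ∨ ∀ c : K, C c * G3 ≠ G4) →
  (∀ N : ℕ, 0 < N → ∃ d : K, d ≠ 0 ∧ ∀ t : i.Lv, Transcendental K t → ∀ u, V t = some u →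
    ∃ γ : i.Lv, u * aeval t G2 = algebraMap K i.Lv d * aeval t G1 * γ ^ N) →
  (∀ N : ℕ, 0 < N → ∃ d : K, d ≠ 0 ∧ ∀ t : i.Lv, Transcendental K t → ∀ u, V t = some u →
    ∃ γ : i.Lv, (u - 1) * aeval t G4 = algebraMap K i.Lv d * aeval t G3 * γ ^ N) →
  (∀ N : ℕ, 0 < N → ∃ d : K, d ≠ 0 ∧ ∀ t : i.Lv, Transcendental K t → V t = none →
    ∃ γ : i.Lv, aeval t G4 * aeval t G1 = algebraMap K i.Lv d * aeval t G3 * aeval t G2 * γ ^ N) →
  ∀ t : i.Lv, Transcendental K t → ∀ u, V t = some u →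
    ∃ P Q : K[X], Q ≠ 0 ∧ u * aeval t Q = aeval t P

end Pool.Agent.Helper39.FT
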