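import Pool.Agent.Helper39.FT.Fin3
import Pool.Agent.Helper88.FT.U4
import Pool.Agent.Helper4.FT.Nrm
import Pool.Agent.Helper4.FT.Mas
import Pool.Agent.Helper83.FT.LFT
import Pool.Agent.Helper41.FT.Int
import Pool.Graph.R_seed8.Y791.BC.ConjA
import Pool.Graph.R_seed8.Y791.BC.EmbP

/-!
# Semilinear actions over `K(T)` with points at all places
-/

set_option autoImplicit false

namespace Pool.Agent.Helper39.FT

open Pool.Agent.Y791.BC

/-- the function which vanishes at all places -/
theorem all_main : S_ALL :=
  all EmbP.main ConjA.main Pool.Agent.Helper88.FT.main Pool.Agent.Helper4.FT.main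
    Pool.Agent.Helper4.FTM.main Pool.Agent.Helper83.FT.main Pool.Agent.Helper41.FT.main
    Pool.Agent.Helper83.FT.alg2

end Pool.Agent.Helper39.FT
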