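import Pool.Agent.Helper39.FT.Sel

/-!
# Congruences for the multiplicities of the reduction
-/

set_option autoImplicit false
set_option linter.unusedSectionVars false

open Polynomial IsDedekindDomain NumberField

namespace Pool.Agent.Helper39.FT

open Pool.Agent.TH954 Pool.Agent.Y791.BF Pool.Agent.Y791.BC.Leg

variable {K : Type} [Field K] [CharZero K] [hess : Algebra.EssFiniteType ℚ K]
  {F0 : Type} [Field F0] [Algebra (RatFunc K) F0] [CharZero F0] [CharZero (RatFunc K)]
  (q : ∀ i : PlF (RatFunc K), Plc (RatFunc K) F0 i.Lv)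

/-- multiplicity of a root of the reduction -/
noncomputable def RSys.rm (D : RSys K) (b : D.E) (P : (ZMod D.p)[X]) : ℕ :=
  (P.map (algebraMap (ZMod D.p) D.E)).rootMultiplicity b

lemma RSys.map_ne {D : RSys K} {P : (ZMod D.p)[X]} (h : P ≠ 0) :
    P.map (algebraMap (ZMod D.p) D.E) ≠ 0 :=
  (Polynomial.map_ne_zero_iff (algebraMap (ZMod D.p) D.E).injective).2 h

lemma RSys.rm_mul {D : RSys K} {b : D.E} {P Q : (ZMod D.p)[X]} (hP : P ≠ 0) (hQ : Q ≠ 0) :
    D.rm b (P * Q) = D.rm b P + D.rm b Q := by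
  unfold RSys.rm
  rw [Polynomial.map_mul, rootMultiplicity_mul (mul_ne_zero (D.map_ne hP) (D.map_ne hQ))]

lemma RSys.rm_pow {D : RSys K} {b : D.E} {P : (ZMod D.p)[X]} (hP : P ≠ 0) (n : ℕ) :
    D.rm b (P ^ n) = n * D.rm b P := by
  induction n with
  | zero =>
    unfold RSys.rm
    rw [pow_zero, zero_mul, Polynomial.map_one, rootMultiplicity_eq_zero]
    simp
  | succ n ih =>
    rw [pow_succ, D.rm_mul (pow_ne_zero _ hP) hP, ih]
    ring

lemma rootMult_le {k : Type} [Field k] (p : k[X]) (a : k) :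
    p.rootMultiplicity a ≤ p.natDegree := by
  classical
  rw [← count_roots]
  exact (Multiset.count_le_card _ _).trans (card_roots' p)

lemma RSys.rm_le (D : RSys K) (b : D.E) (P : (ZMod D.p)[X]) :
    D.rm b P ≤ P.natDegree := by
  have h1 := rootMult_le (P.map (algebraMap (ZMod D.p) D.E)) b
  rwa [natDegree_map] at h1

/-- coprime parts -/
lemma exists_cop {k : Type} [Field k] {U0 V0 : k[X]} (hV0 : V0 ≠ 0) :
    ∃ G U V : k[X], G ≠ 0 ∧ IsCoprime U V ∧ U0 = G * U ∧ V0 = G * V := by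
  classical
  have hG : EuclideanDomain.gcd U0 V0 ≠ 0 := by
    intro h
    rw [EuclideanDomain.gcd_eq_zero_iff] at h
    exact hV0 h.2
  obtain ⟨U, hU⟩ := EuclideanDomain.gcd_dvd_left U0 V0
  obtain ⟨V, hV⟩ := EuclideanDomain.gcd_dvd_right U0 V0
  refine ⟨EuclideanDomain.gcd U0 V0, U, V, hG, ?_, hU, hV⟩
  refine ⟨EuclideanDomain.gcdA U0 V0, EuclideanDomain.gcdB U0 V0, ?_⟩
  have h1 := EuclideanDomain.gcd_eq_gcd_ab U0 V0
  generalize EuclideanDomain.gcd U0 V0 = g at *
  generalize EuclideanDomain.gcdA U0 V0 = x at *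
  generalize EuclideanDomain.gcdB U0 V0 = y at *
  subst hU hV
  apply mul_left_cancel₀ hG
  rw [mul_one, mul_add]
  conv_rhs => rw [h1]
  ring

include hess in
/-- the residues of the values of a function and its class -/
lemma res_cls {D : RSys K} {m : ℕ} (hm : 0 < m) {t : ball1 (D.i m).Lv}
    (ht : Transcendental K (t : (D.i m).Lv)) {N : ℕ} (hN : 0 < N) {A : D.B[X]} {f : F0}
    (h : Cls N (A.map D.B.subtype) f) {u : ball1 (D.i m).Lv}
    (hu : (q (plT (D.i m) ht)).val f (u : (D.i m).Lv)) (hu0 : D.res m u ≠ 0)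
    (hA : aeval (D.res m t) (A.map D.r) ≠ 0) :
    ∃ g : D.E, g ^ D.p ^ m = g ∧ D.res m u = aeval (D.res m t) (A.map D.r) * g ^ N := by
  obtain ⟨γ, hγ⟩ := cls_val q ht hN h hu
  rw [← D.eval_psi] at hγ
  have evr : D.res m ((A.map (D.psi m)).eval t) = aeval (D.res m t) (A.map D.r) := by
    rw [Loc.res_eval (D.res m) (D.res_zero m), D.map_res, eval_map, ← aeval_def]
  rw [← evr] at hA
  have n1 := Loc.norm_one_of (D.res m) (D.res_zero m) hA
  have n2 := Loc.norm_one_of (D.res m) (D.res_zero m) hu0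
  have n3 : ‖γ‖ = 1 := by
    have h3 := congrArg norm hγ
    rw [norm_mul, n1, n2, one_mul, norm_pow] at h3
    exact (pow_eq_one_iff_of_nonneg (norm_nonneg _) hN.ne').1 h3.symm
  refine ⟨D.res m ⟨γ, n3.le⟩, (D.res_range m hm _).1 ⟨_, rfl⟩, ?_⟩
  rw [← evr, ← map_pow, ← map_mul]
  congr 1
  exact Subtype.ext hγ

/-- the data of a good reduction -/
structure GData (D : RSys K) (y : F0) where
  U : (ZMod D.p)[X]
  V : (ZMod D.p)[X]
  cop : IsCoprime U V
  W : derivative U * V - U * derivative V ≠ 0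
  cA : ∀ (N : ℕ), 0 < N → ¬ D.p ∣ N → ∀ A : D.B[X], A.map D.r ≠ 0 →
    Cls N (A.map D.B.subtype) y → ∀ b : D.E,
      (N : ℤ) ∣ (D.rm b U : ℤ) - D.rm b V - D.rm b (A.map D.r)
  cH : ∀ (N : ℕ), 0 < N → ¬ D.p ∣ N → ∀ A : D.B[X], A.map D.r ≠ 0 →
    Cls N (A.map D.B.subtype) (y - 1) → ∀ b : D.E,
      (N : ℤ) ∣ (D.rm b (U - V) : ℤ) - D.rm b V - D.rm b (A.map D.r)

lemma W_ne {k : Type} [Field k] {U V : k[X]} (h : derivative U * V - U * derivative V ≠ 0) :
    U ≠ 0 ∧ V ≠ 0 ∧ U - V ≠ 0 := by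
  refine ⟨?_, ?_, ?_⟩
  · rintro rfl
    simp at h
  · rintro rfl
    simp at h
  · intro h1
    rw [sub_eq_zero] at h1
    subst h1
    apply h
    ring

include hess in
/-- congruences -/
theorem exists_gdata (hNRM : S_NRM) {D : RSys K} {y : F0} (hg : Good q D y) :
    Nonempty (GData D y) := by
  obtain ⟨U0, V0, S, hV0, hS0, hW0, hkey⟩ := hg
  obtain ⟨hU0, -, hUV0⟩ := W_ne hW0
  obtain ⟨G, U, V, hG0, hcop, hU, hV⟩ := exists_cop (U0 := U0) hV0
  have hW : derivative U * V - U * derivative V ≠ 0 := by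
    intro h
    apply hW0
    rw [hU, hV, derivative_mul, derivative_mul]
    have e : (derivative G * U + G * derivative U) * (G * V) -
        G * U * (derivative G * V + G * derivative V) =
        G ^ 2 * (derivative U * V - U * derivative V) := by ring
    rw [e, h, mul_zero]
  obtain ⟨hUn, hVn, hUVn⟩ := W_ne hW
  refine ⟨⟨U, V, hcop, hW, fun N hN hpN A hA hcl b => ?_, fun N hN hpN A hA hcl b => ?_⟩⟩
  · have h1 := hNRM D.p N hN hpN U0 (V0 * A.map D.r) (S * U0 * V0 * A.map D.r) hU0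
      (mul_ne_zero hV0 hA) (mul_ne_zero (mul_ne_zero (mul_ne_zero hS0 hU0) hV0) hA)
      (fun m hm a ha haS => by
        rw [map_mul, map_mul, map_mul] at haS
        have s4 : aeval a (A.map D.r) ≠ 0 := fun h => haS (by rw [h, mul_zero])
        have s3 : aeval a V0 ≠ 0 := fun h => haS (by rw [h, mul_zero, zero_mul])
        have s2 : aeval a U0 ≠ 0 := fun h => haS (by rw [h, mul_zero, zero_mul, zero_mul])
        have s1 : aeval a S ≠ 0 := fun h => haS (by rw [h, zero_mul, zero_mul, zero_mul])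
        obtain ⟨t, ht, hta, u, hu, hVu⟩ := hkey m hm a ha s1
        have hu0 : D.res m u ≠ 0 := by
          intro h
          rw [h, mul_zero] at hVu
          exact s2 hVu.symm
        obtain ⟨g, hg1, hg2⟩ := res_cls q hm ht hN hcl (vv_val q ht hu) hu0
          (by rw [hta]; exact s4)
        refine ⟨g, hg1, ?_⟩
        rw [← hVu, hg2, hta, map_mul]
        ring) b
    have e1 : (D.rm b U0 : ℤ) = D.rm b G + D.rm b U := by
      rw [hU, D.rm_mul hG0 hUn]
      push_cast
      ring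
    have e2 : (D.rm b (V0 * A.map D.r) : ℤ) = D.rm b G + D.rm b V + D.rm b (A.map D.r) := by
      rw [D.rm_mul hV0 hA, hV, D.rm_mul hG0 hVn]
      push_cast
      ring
    have h2 : (N : ℤ) ∣ (D.rm b U0 : ℤ) - D.rm b (V0 * A.map D.r) := h1
    rw [e1, e2] at h2
    have e3 : (D.rm b U : ℤ) - D.rm b V - D.rm b (A.map D.r) =
        (D.rm b G : ℤ) + D.rm b U - (D.rm b G + D.rm b V + D.rm b (A.map D.r)) := by ring
    rw [e3]
    exact h2
  · have h1 := hNRM D.p N hN hpN (U0 - V0) (V0 * A.map D.r) (S * (U0 - V0) * V0 * A.map D.r) hUV0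
      (mul_ne_zero hV0 hA) (mul_ne_zero (mul_ne_zero (mul_ne_zero hS0 hUV0) hV0) hA)
      (fun m hm a ha haS => by
        rw [map_mul, map_mul, map_mul] at haS
        have s4 : aeval a (A.map D.r) ≠ 0 := fun h => haS (by rw [h, mul_zero])
        have s3 : aeval a V0 ≠ 0 := fun h => haS (by rw [h, mul_zero, zero_mul])
        have s2 : aeval a (U0 - V0) ≠ 0 := fun h => haS (by rw [h, mul_zero, zero_mul, zero_mul])
        have s1 : aeval a S ≠ 0 := fun h => haS (by rw [h, zero_mul, zero_mul, zero_mul])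
        obtain ⟨t, ht, hta, u, hu, hVu⟩ := hkey m hm a ha s1
        have hVu1 : aeval a V0 * D.res m (u - 1) = aeval a (U0 - V0) := by
          rw [map_sub (D.res m), map_one, mul_sub, mul_one, hVu, map_sub]
        have hu0 : D.res m (u - 1) ≠ 0 := by
          intro h
          rw [h, mul_zero] at hVu1
          exact s2 hVu1.symm
        have hval : (q (plT (D.i m) ht)).val (y - 1) ((u - 1 : ball1 (D.i m).Lv) : (D.i m).Lv) :=
          (vv_val q ht hu).sub Plc.val_one
        obtain ⟨g, hg1, hg2⟩ := res_cls q hm ht hN hcl hval hu0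
          (by rw [hta]; exact s4)
        refine ⟨g, hg1, ?_⟩
        rw [← hVu1, hg2, hta, map_mul]
        ring) b
    have e1 : (D.rm b (U0 - V0) : ℤ) = D.rm b G + D.rm b (U - V) := by
      rw [hU, hV, ← mul_sub, D.rm_mul hG0 hUVn]
      push_cast
      ring
    have e2 : (D.rm b (V0 * A.map D.r) : ℤ) = D.rm b G + D.rm b V + D.rm b (A.map D.r) := by
      rw [D.rm_mul hV0 hA, hV, D.rm_mul hG0 hVn]
      push_cast
      ring
    have h2 : (N : ℤ) ∣ (D.rm b (U0 - V0) : ℤ) - D.rm b (V0 * A.map D.r) := h1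
    rw [e1, e2] at h2
    have e3 : (D.rm b (U - V) : ℤ) - D.rm b V - D.rm b (A.map D.r) =
        (D.rm b G : ℤ) + D.rm b (U - V) - (D.rm b G + D.rm b V + D.rm b (A.map D.r)) := by ring
    rw [e3]
    exact h2

/-- the degree is bounded -/
theorem GData.bound (hMAS : S_MAS) {D : RSys K} {y : F0} (G : GData D y) (hp : D.p ≠ 2)
    {A H : D.B[X]} (hA : A.map D.r ≠ 0) (hH : H.map D.r ≠ 0)
    (cA : Cls 4 (A.map D.B.subtype) y) (cH : Cls 4 (H.map D.B.subtype) (y - 1)) :
    G.U.natDegree ≤ 4 * (A.natDegree + H.natDegree) ∧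
      G.V.natDegree ≤ 4 * (A.natDegree + H.natDegree) := by
  have h4 : ¬ D.p ∣ 4 := by
    intro h
    have h1 : D.p ∣ 2 ^ 2 := by norm_num; exact h
    have h2 := (Nat.prime_dvd_prime_iff_eq D.hp.out Nat.prime_two).1 (D.hp.out.dvd_of_dvd_pow h1)
    exact hp h2
  have h1 := hMAS (ZMod D.p) D.E G.U G.V (A.map D.r) (H.map D.r) G.cop G.W hA hH
    (fun b => G.cA 4 (by norm_num) h4 A hA cA b) (fun b => G.cH 4 (by norm_num) h4 H hH cH b)
  have h2 : (A.map D.r).natDegree ≤ A.natDegree := natDegree_map_le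
  have h3 : (H.map D.r).natDegree ≤ H.natDegree := natDegree_map_le
  exact ⟨h1.1.trans (by omega), h1.2.trans (by omega)⟩

end Pool.Agent.Helper39.FT
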