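import Pool.Agent.Helper39.FT.Cong

/-!
# The class of a function with good reductions
-/

set_option autoImplicit false
set_option linter.unusedSectionVars false

open Polynomial IsDedekindDomain NumberField

namespace Pool.Agent.Helper39.FT

open Pool.Agent.TH954 Pool.Agent.Y791.BF Pool.Agent.Y791.BC.Leg

section mu

variable {K : Type} [Field K] [CharZero K]

lemma mu_mul {P Q : K[X]} (hP : P ≠ 0) (hQ : Q ≠ 0) (ρ : AlgebraicClosure K) :
    Types.mu (P * Q) ρ = Types.mu P ρ + Types.mu Q ρ := by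
  unfold Types.mu
  rw [Polynomial.map_mul, rootMultiplicity_mul]
  exact mul_ne_zero ((Polynomial.map_ne_zero_iff (algebraMap K _).injective).2 hP)
    ((Polynomial.map_ne_zero_iff (algebraMap K _).injective).2 hQ)

lemma mu_pow {P : K[X]} (hP : P ≠ 0) (ρ : AlgebraicClosure K) (n : ℕ) :
    Types.mu (P ^ n) ρ = n * Types.mu P ρ := by
  induction n with
  | zero =>
    unfold Types.mu
    rw [pow_zero, zero_mul, Polynomial.map_one, rootMultiplicity_eq_zero]
    simp
  | succ n ih =>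
    rw [pow_succ, mu_mul (pow_ne_zero _ hP) hP, ih]
    ring

end mu

variable {K : Type} [Field K] [CharZero K] [hess : Algebra.EssFiniteType ℚ K]
  {F0 : Type} [Field F0] [Algebra (RatFunc K) F0] [CharZero F0] [CharZero (RatFunc K)]
  (q : ∀ i : PlF (RatFunc K), Plc (RatFunc K) F0 i.Lv)

lemma pF_inj {A B : K[X]} (h : pF F0 A = pF F0 B) : A = B :=
  RatFunc.algebraMap_injective K ((algebraMap (RatFunc K) F0).injective h)

lemma pF_ne {A : K[X]} (h : A ≠ 0) : pF F0 A ≠ 0 := by
  refine (_root_.map_ne_zero _).2 ?_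
  exact (map_ne_zero_iff _ (RatFunc.algebraMap_injective K)).2 h

/-- two classes of a function -/
lemma cls_cls (hint : ∀ x : F0, IsAlgebraic (RatFunc K) x → ∃ c, algebraMap (RatFunc K) F0 c = x)
    {f : F0} (hf : f ≠ 0) {N : ℕ} (hN : 0 < N) {A B : K[X]} (hA : Cls N A f) (hB : Cls N B f) :
    ∃ P Q : K[X], P ≠ 0 ∧ Q ≠ 0 ∧ A * P ^ N = B * Q ^ N := by
  obtain ⟨hA0, u, hu⟩ := hA
  obtain ⟨hB0, v, hv⟩ := hB
  have hu0 : u ≠ 0 := by
    rintro rfl
    rw [zero_pow hN.ne', mul_zero] at hu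
    exact hf hu
  have hv0 : v ≠ 0 := by
    rintro rfl
    rw [zero_pow hN.ne', mul_zero] at hv
    exact hf hv
  have e : pF F0 A = pF F0 B * (v / u) ^ N := by
    rw [div_pow, ← mul_div_assoc, ← hv, hu, mul_div_assoc, div_self (pow_ne_zero _ hu0), mul_one]
  have e2 : (v / u) ^ N = pF F0 A / pF F0 B := by
    rw [e, mul_div_cancel_left₀ _ (pF_ne hB0)]
  have halg : IsAlgebraic (RatFunc K) (v / u) := by
    have h1 : IsAlgebraic (RatFunc K) ((v / u) ^ N) := by
      rw [e2, div_eq_mul_inv]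
      exact (isAlgebraic_algebraMap _).mul (isAlgebraic_algebraMap _).inv
    exact h1.of_pow hN
  obtain ⟨c, hc⟩ := hint _ halg
  have hc0 : c ≠ 0 := by
    rintro rfl
    rw [map_zero] at hc
    exact div_ne_zero hv0 hu0 hc.symm
  refine ⟨c.denom, c.num, c.denom_ne_zero, c.num_ne_zero hc0, ?_⟩
  apply pF_inj (F0 := F0)
  have h2 : pF F0 c.num = algebraMap (RatFunc K) F0 c * pF F0 c.denom := by
    rw [pF, pF, ← map_mul]
    congr 1
    have h3 := RatFunc.num_div_denom c
    rw [div_eq_iff] at h3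
    · exact h3
    · exact (map_ne_zero_iff _ (RatFunc.algebraMap_injective K)).2 c.denom_ne_zero
  have e3 : ∀ P Q : K[X], ∀ n, pF F0 (P * Q ^ n) = pF F0 P * pF F0 Q ^ n := by
    intro P Q n
    simp only [pF, map_mul, map_pow]
  rw [e3, e3, h2, e, ← hc, mul_pow]
  ring

/-- the classes are compatible -/
theorem cls_compat
    (hint : ∀ x : F0, IsAlgebraic (RatFunc K) x → ∃ c, algebraMap (RatFunc K) F0 c = x)
    {f : F0} (hf : f ≠ 0) {A : ℕ → K[X]} (hA : ∀ N, 0 < N → Cls N (A N) f) {N M : ℕ} (hN : 0 < N)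
    (hM : 0 < M) (ρ : AlgebraicClosure K) :
    (N : ℤ) ∣ (Types.mu (A (N * M)) ρ : ℤ) - Types.mu (A N) ρ := by
  have h1 : Cls N (A (N * M)) f := by
    obtain ⟨h0, g, hg⟩ := hA (N * M) (Nat.mul_pos hN hM)
    refine ⟨h0, g ^ M, ?_⟩
    rw [hg, ← pow_mul, mul_comm M N]
  obtain ⟨P, Q, hP, hQ, h⟩ := cls_cls hint hf hN h1 (hA N hN)
  have e : Types.mu (A (N * M) * P ^ N) ρ = Types.mu (A N * Q ^ N) ρ := by rw [h]
  rw [mu_mul h1.1 (pow_ne_zero _ hP), mu_mul (hA N hN).1 (pow_ne_zero _ hQ), mu_pow hP,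
    mu_pow hQ] at e
  refine ⟨(Types.mu Q ρ : ℤ) - Types.mu P ρ, ?_⟩
  have e' : (Types.mu (A (N * M)) ρ : ℤ) + N * Types.mu P ρ = Types.mu (A N) ρ + N * Types.mu Q ρ := by
    exact_mod_cast e
  linear_combination e'

/-- functions with good reductions for almost all systems -/
def AllGood (y : F0) : Prop :=
  ∀ (Z : Finset K) (n0 : ℕ), ∃ D : RSys K, n0 < D.p ∧ GoodZ D Z ∧ Good q D y

include hess in
theorem exists_allGood (hSYS : S_SYS) (hF : KumF K F0) {x : F0}
    (hx : Transcendental (RatFunc K) x) :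
    ∃ y : F0, Transcendental (RatFunc K) y ∧ AllGood q y := by
  classical
  obtain ⟨Z, hZ⟩ := sel q hF hx
  have halgT : IsAlgebraic (RatFunc K) (TF (K := K) F0) := isAlgebraic_algebraMap _
  have hX0 : TF (K := K) F0 ≠ 0 := pF_ne X_ne_zero
  have add : ∀ z : F0, Transcendental (RatFunc K) z →
      Transcendental (RatFunc K) (z + TF (K := K) F0) := by
    intro z hz h
    apply hz
    have e : z = z + TF (K := K) F0 - TF (K := K) F0 := by ring
    rw [e]
    exact h.sub halgT
  have inv : ∀ z : F0, Transcendental (RatFunc K) z → Transcendental (RatFunc K) z⁻¹ := by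
    intro z hz h
    apply hz
    rw [← inv_inv z]
    exact h.inv
  have mul : Transcendental (RatFunc K) (x * TF (K := K) F0) := by
    intro h
    apply hx
    have e : x = x * TF (K := K) F0 * (TF (K := K) F0)⁻¹ := by
      rw [mul_assoc, mul_inv_cancel₀ hX0, mul_one]
    rw [e]
    exact h.mul halgT.inv
  have htr : ∀ b, Transcendental (RatFunc K) (cand (K := K) x b) := by
    rintro ⟨b1, b2⟩
    fin_cases b1 <;> fin_cases b2
    · exact hx
    · exact add _ hx
    · exact add _ (inv _ hx)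
    · exact mul
    · exact add _ mul
    · exact add _ (inv _ mul)
  by_contra hcon
  push Not at hcon
  have h1 : ∀ b, ∃ (Z : Finset K) (n0 : ℕ), ∀ D : RSys K, n0 < D.p → GoodZ D Z →
      ¬ Good q D (cand (K := K) x b) := by
    intro b
    have h2 := hcon _ (htr b)
    unfold AllGood at h2
    push Not at h2
    exact h2
  choose Zb nb hb using h1
  obtain ⟨D, hDp, hD⟩ := hSYS K hess (Z ∪ Finset.univ.biUnion Zb) (Finset.univ.sup nb)
  obtain ⟨b, hgood⟩ := hZ D (fun z hz => hD z (Finset.mem_union_left _ hz))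
  refine hb b D ((Finset.le_sup (Finset.mem_univ b)).trans_lt hDp) (fun z hz => hD z ?_) hgood
  exact Finset.mem_union_right _ (Finset.mem_biUnion.2 ⟨b, Finset.mem_univ b, hz⟩)

end Pool.Agent.Helper39.FT
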