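import Pool.Agent.Helper39.FT.Fin1

/-!
# The multiplicities are small, and the reductions are not powers
-/

set_option autoImplicit false
set_option linter.unusedSectionVars false

open Polynomial IsDedekindDomain NumberField

namespace Pool.Agent.Helper39.FT

open Pool.Agent.TH954 Pool.Agent.Y791.BF Pool.Agent.Y791.BC.Leg

variable {K : Type} [Field K] [CharZero K] [hess : Algebra.EssFiniteType ℚ K]
  {F0 : Type} [Field F0] [Algebra (RatFunc K) F0] [CharZero F0] [CharZero (RatFunc K)]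
  (q : ∀ i : PlF (RatFunc K), Plc (RatFunc K) F0 i.Lv)

/-- the classes `A` of `y` and `H` of `y - 1` -/
structure Cl (y : F0) (A H : ℕ → K[X]) : Prop where
  cA : ∀ N, 0 < N → Cls N (A N) y
  cH : ∀ N, 0 < N → Cls N (H N) (y - 1)

/-- the bound -/
def B0 (A H : ℕ → K[X]) : ℕ := 4 * ((A 4).natDegree + (H 4).natDegree)

lemma natDegree_lift {D : RSys K} {A : K[X]} {A' : D.B[X]} (h : A'.map D.B.subtype = A) :
    A'.natDegree = A.natDegree := by
  rw [← h, natDegree_map_eq_of_injective D.B.subtype_injective]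

include hess in
/-- reductions with bounded degree, which are good for a given polynomial -/
theorem exists_red (hNRM : S_NRM) (hMAS : S_MAS) {y : F0} (hy : AllGood q y) {A H : ℕ → K[X]}
    (hc : Cl y A H) (Z : Finset K) (n0 : ℕ) :
    ∃ D : RSys K, n0 < D.p ∧ GoodZ D Z ∧ ∃ G : GData D y,
      G.U.natDegree ≤ B0 A H ∧ G.V.natDegree ≤ B0 A H := by
  classical
  obtain ⟨D, hDp, hDZ, hg⟩ := hy (Z ∪ coef (A 4) ∪ coef (H 4)) (max n0 2)
  obtain ⟨G⟩ := exists_gdata q hNRM hg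
  have h4 : 0 < 4 := by norm_num
  obtain ⟨A', hA', hA0⟩ := goodP_coef D (hc.cA 4 h4).1 (Z := Z ∪ coef (A 4) ∪ coef (H 4))
    (fun z hz => by simp [hz]) hDZ
  obtain ⟨H', hH', hH0⟩ := goodP_coef D (hc.cH 4 h4).1 (Z := Z ∪ coef (A 4) ∪ coef (H 4))
    (fun z hz => by simp [hz]) hDZ
  have hp2 : D.p ≠ 2 := by
    have := (le_max_right n0 2).trans_lt hDp
    omega
  have hb := G.bound hMAS hp2 hA0 hH0 (by rw [hA']; exact hc.cA 4 h4)
    (by rw [hH']; exact hc.cH 4 h4)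
  rw [natDegree_lift hA', natDegree_lift hH'] at hb
  exact ⟨D, (le_max_left n0 2).trans_lt hDp, fun z hz => hDZ z (by simp [hz]), G, hb⟩

lemma natDegree_sub_le' {k : Type} [Field k] {U V : k[X]} {n : ℕ} (hU : U.natDegree ≤ n)
    (hV : V.natDegree ≤ n) : (U - V).natDegree ≤ n :=
  (natDegree_sub_le U V).trans (max_le hU hV)

lemma abs_sub_nat {a b n : ℕ} (ha : a ≤ n) (hb : b ≤ n) : |(a : ℤ) - b| ≤ n := by
  rw [abs_le]
  omega

include hess in
/-- the multiplicities are small -/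
theorem smallA (hNRM : S_NRM) (hMAS : S_MAS) (hLFT : S_LFT) {y : F0} (hy : AllGood q y)
    {A H : ℕ → K[X]} (hc : Cl y A H) {N : ℕ} (hN : 0 < N) (ρ : AlgebraicClosure K) :
    ∃ n : ℤ, |n| ≤ B0 A H ∧ (N : ℤ) ∣ (Types.mu (A N) ρ : ℤ) - n := by
  classical
  obtain ⟨Z, hZ⟩ := hLFT K (A N) (hc.cA N hN).1 ρ
  obtain ⟨D, hDp, hDZ, G, hU, hV⟩ := exists_red q hNRM hMAS hy hc (Z ∪ coef (A N)) N
  obtain ⟨A', hA', hA0⟩ := goodP_coef D (hc.cA N hN).1 (Z := Z ∪ coef (A N))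
    (fun z hz => by simp [hz]) hDZ
  obtain ⟨b, hb⟩ := hZ D (fun z hz => hDZ z (by simp [hz])) A' hA'
  have hb' : Types.mu (A N) ρ = D.rm b (A'.map D.r) := by
    rw [hb, RSys.rm, Polynomial.map_map]
  have hpN : ¬ D.p ∣ N := fun h => absurd (Nat.le_of_dvd hN h) (by omega)
  have h1 := G.cA N hN hpN A' hA0 (by rw [hA']; exact hc.cA N hN) b
  refine ⟨(D.rm b G.U : ℤ) - D.rm b G.V, abs_sub_nat ((D.rm_le b _).trans hU)
    ((D.rm_le b _).trans hV), ?_⟩
  rw [hb', ← dvd_neg]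
  have e : -((D.rm b (A'.map D.r) : ℤ) - ((D.rm b G.U : ℤ) - D.rm b G.V)) =
      (D.rm b G.U : ℤ) - D.rm b G.V - D.rm b (A'.map D.r) := by ring
  rw [e]
  exact h1

include hess in
/-- the multiplicities are small -/
theorem smallH (hNRM : S_NRM) (hMAS : S_MAS) (hLFT : S_LFT) {y : F0} (hy : AllGood q y)
    {A H : ℕ → K[X]} (hc : Cl y A H) {N : ℕ} (hN : 0 < N) (ρ : AlgebraicClosure K) :
    ∃ n : ℤ, |n| ≤ B0 A H ∧ (N : ℤ) ∣ (Types.mu (H N) ρ : ℤ) - n := by
  classical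
  obtain ⟨Z, hZ⟩ := hLFT K (H N) (hc.cH N hN).1 ρ
  obtain ⟨D, hDp, hDZ, G, hU, hV⟩ := exists_red q hNRM hMAS hy hc (Z ∪ coef (H N)) N
  obtain ⟨H', hH', hH0⟩ := goodP_coef D (hc.cH N hN).1 (Z := Z ∪ coef (H N))
    (fun z hz => by simp [hz]) hDZ
  obtain ⟨b, hb⟩ := hZ D (fun z hz => hDZ z (by simp [hz])) H' hH'
  have hb' : Types.mu (H N) ρ = D.rm b (H'.map D.r) := by
    rw [hb, RSys.rm, Polynomial.map_map]
  have hpN : ¬ D.p ∣ N := fun h => absurd (Nat.le_of_dvd hN h) (by omega)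
  have h1 := G.cH N hN hpN H' hH0 (by rw [hH']; exact hc.cH N hN) b
  refine ⟨(D.rm b (G.U - G.V) : ℤ) - D.rm b G.V,
    abs_sub_nat ((D.rm_le b _).trans (natDegree_sub_le' hU hV)) ((D.rm_le b _).trans hV), ?_⟩
  rw [hb', ← dvd_neg]
  have e : -((D.rm b (H'.map D.r) : ℤ) - ((D.rm b (G.U - G.V) : ℤ) - D.rm b G.V)) =
      (D.rm b (G.U - G.V) : ℤ) - D.rm b G.V - D.rm b (H'.map D.r) := by ring
  rw [e]
  exact h1

/-- coprime polynomials with the same multiplicities are constant -/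
lemma const_of_rm {D : RSys K} {U V : (ZMod D.p)[X]} (hc : IsCoprime U V) (hU : U ≠ 0) (hV : V ≠ 0)
    (h : ∀ b, D.rm b U = D.rm b V) : derivative U = 0 ∧ derivative V = 0 := by
  have hz : ∀ b, D.rm b U = 0 ∧ D.rm b V = 0 := by
    intro b
    by_contra hcon
    have h1 : D.rm b U ≠ 0 := by
      intro h1
      exact hcon ⟨h1, by rw [← h b, h1]⟩
    have h2 : D.rm b V ≠ 0 := by rwa [← h b]
    have r1 : (U.map (algebraMap (ZMod D.p) D.E)).IsRoot b :=
      (rootMultiplicity_pos (D.map_ne hU)).1 (Nat.pos_of_ne_zero h1)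
    have r2 : (V.map (algebraMap (ZMod D.p) D.E)).IsRoot b :=
      (rootMultiplicity_pos (D.map_ne hV)).1 (Nat.pos_of_ne_zero h2)
    obtain ⟨x, y, hxy⟩ := hc
    have h3 := congrArg (fun P => (P.map (algebraMap (ZMod D.p) D.E)).eval b) hxy
    simp only [Polynomial.map_add, Polynomial.map_mul, eval_add, eval_mul, r1.eq_zero, r2.eq_zero,
      mul_zero, add_zero, Polynomial.map_one, eval_one] at h3
    exact zero_ne_one h3
  have key : ∀ P : (ZMod D.p)[X], P ≠ 0 → (∀ b, D.rm b P = 0) → derivative P = 0 := by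
    intro P hP h0
    have h1 : (P.map (algebraMap (ZMod D.p) D.E)).natDegree = 0 := by
      by_contra hd
      obtain ⟨b, hb⟩ := IsAlgClosed.exists_root (P.map (algebraMap (ZMod D.p) D.E)) (by
        intro h1
        exact hd (natDegree_eq_of_degree_eq_some h1))
      have h2 := (rootMultiplicity_pos (D.map_ne hP)).2 hb
      have h3 := h0 b
      unfold RSys.rm at h3
      omega
    rw [natDegree_map] at h1
    rw [eq_C_of_natDegree_eq_zero h1, derivative_C]
  exact ⟨key U hU fun b => (hz b).1, key V hV fun b => (hz b).2⟩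

include hess in
/-- the function is not constant up to powers -/
theorem not_const (hNRM : S_NRM) (hMAS : S_MAS) {y : F0} (hy : AllGood q y)
    {A H : ℕ → K[X]} (hc : Cl y A H) {G1 G2 : K[X]} (hG1 : G1 ≠ 0) (hG2 : G2 ≠ 0)
    (hG : ∀ N : ℕ, 0 < N → ∃ (d : K) (h : K[X]), d ≠ 0 ∧ h ≠ 0 ∧
      A N * G2 * G1 ^ (N - 1) = C d * h ^ N) (c : K) : C c * G1 ≠ G2 := by
  classical
  intro hcG
  have hc0 : c ≠ 0 := by
    rintro rfl
    rw [map_zero, zero_mul] at hcG
    exact hG2 hcG.symm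
  set N := B0 A H + 1 with hN
  have hN0 : 0 < N := Nat.succ_pos _
  obtain ⟨d, h, hd, hh, e⟩ := hG N hN0
  have e1 : A N * G1 ^ N = C (c⁻¹ * d) * h ^ N := by
    have h2 : N = N - 1 + 1 := by omega
    have e3 : C c * (A N * G1 ^ N) = C d * h ^ N := by
      rw [← e, ← hcG]
      conv_lhs => rw [h2, pow_succ]
      rw [← h2]
      ring
    rw [map_mul, mul_assoc, ← e3, ← mul_assoc (C c⁻¹), ← map_mul, inv_mul_cancel₀ hc0, map_one,
      one_mul]
  have hd' : c⁻¹ * d ≠ 0 := mul_ne_zero (inv_ne_zero hc0) hd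
  set d' := c⁻¹ * d with hd'def
  obtain ⟨D, hDp, hDZ, G, hU, hV⟩ := exists_red q hNRM hMAS hy hc
    (coef (A N) ∪ coef G1 ∪ coef h ∪ coef (C d')) N
  obtain ⟨A', hA', hA0⟩ := goodP_coef D (hc.cA N hN0).1
    (Z := coef (A N) ∪ coef G1 ∪ coef h ∪ coef (C d')) (fun z hz => by simp [hz]) hDZ
  obtain ⟨G', hG', hG0⟩ := goodP_coef D hG1
    (Z := coef (A N) ∪ coef G1 ∪ coef h ∪ coef (C d')) (fun z hz => by simp [hz]) hDZ
  obtain ⟨h', hh', hh0⟩ := goodP_coef D hh
    (Z := coef (A N) ∪ coef G1 ∪ coef h ∪ coef (C d')) (fun z hz => by simp [hz]) hDZ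
  obtain ⟨d1, hd1, hd0⟩ := goodP_coef D (C_ne_zero.2 hd')
    (Z := coef (A N) ∪ coef G1 ∪ coef h ∪ coef (C d'))
    (fun z hz => by
      rw [Finset.mem_union]
      exact Or.inr hz) hDZ
  have e2 : A' * G' ^ N = d1 * h' ^ N := by
    apply Polynomial.map_injective D.B.subtype D.B.subtype_injective
    rw [Polynomial.map_mul, Polynomial.map_mul, Polynomial.map_pow, Polynomial.map_pow, hA', hG',
      hh', hd1]
    exact e1
  have e3 := congrArg (Polynomial.map D.r) e2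
  rw [Polynomial.map_mul, Polynomial.map_mul, Polynomial.map_pow, Polynomial.map_pow] at e3
  have hpN : ¬ D.p ∣ N := fun h => absurd (Nat.le_of_dvd hN0 h) (by omega)
  obtain ⟨hUn, hVn, -⟩ := W_ne G.W
  have hrm : ∀ b, D.rm b G.U = D.rm b G.V := by
    intro b
    have h1 := G.cA N hN0 hpN A' hA0 (by rw [hA']; exact hc.cA N hN0) b
    have h2 : D.rm b (A'.map D.r) + N * D.rm b (G'.map D.r) =
        D.rm b (d1.map D.r) + N * D.rm b (h'.map D.r) := by
      rw [← D.rm_pow hG0, ← D.rm_pow hh0, ← D.rm_mul hA0 (pow_ne_zero _ hG0),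
        ← D.rm_mul hd0 (pow_ne_zero _ hh0), e3]
    have h3 : D.rm b (d1.map D.r) = 0 := by
      have h4 : (d1.map D.r).natDegree = 0 := by
        have h5 : d1.natDegree = 0 := by rw [natDegree_lift hd1, natDegree_C]
        exact Nat.le_zero.1 (natDegree_map_le.trans h5.le)
      have := D.rm_le b (d1.map D.r)
      omega
    rw [h3, zero_add] at h2
    have h5 : (N : ℤ) ∣ (D.rm b G.U : ℤ) - D.rm b G.V := by
      have h6 : (N : ℤ) ∣ (D.rm b (A'.map D.r) : ℤ) := by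
        refine ⟨(D.rm b (h'.map D.r) : ℤ) - D.rm b (G'.map D.r), ?_⟩
        have h2' : (D.rm b (A'.map D.r) : ℤ) + N * D.rm b (G'.map D.r) = N * D.rm b (h'.map D.r) := by
          exact_mod_cast h2
        linear_combination h2'
      have h7 := dvd_add h1 h6
      rwa [sub_add_cancel] at h7
    have h8 := abs_sub_nat ((D.rm_le b _).trans hU) ((D.rm_le b _).trans hV)
    have h9 := Int.eq_zero_of_abs_lt_dvd h5 (by rw [hN]; push_cast; omega)
    omega
  obtain ⟨h1, h2⟩ := const_of_rm G.cop hUn hVn hrm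
  apply G.W
  rw [h1, h2, zero_mul, mul_zero, sub_zero]

end Pool.Agent.Helper39.FT
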