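import Pool.Agent.Helper39.FT.Defs
import Pool.Graph.R_seed8.Y791.BC.SelE

/-!
# The statement which remains after the assembly (not a result)
-/

set_option autoImplicit false

open Polynomial IsDedekindDomain NumberField

namespace Pool.Agent.Helper39.FT

open Pool.Agent.TH954 Pool.Agent.Y791.BF Pool.Agent.Y791.BC.Leg Pool.Agent.Y791.BS

/-- ALL: a semilinear action over `K(T)` with points at all places has a function which vanishes at
all places. -/
def S_ALL : Prop :=
  ∀ (K : Type) [Field K] [CharZero K], Algebra.EssFiniteType ℚ K →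
  ∀ (M : Type) [Field M] [CharZero M] [IsAlgClosed M] [Algebra (RatFunc K) M]
    (A : SAct (RatFunc K) M)
    (pl : ∀ i : PlF (RatFunc K), Plc (RatFunc K) M (AlgebraicClosure i.Lv)),
    (∀ i, GeoPlc A (pl i)) → ∀ x : M, x ∈ A.fix → Transcendental (RatFunc K) x →
    ∃ t : M, t ≠ 0 ∧ ∀ i, (pl i).val t 0

end Pool.Agent.Helper39.FT
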