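import Pool.Agent.Helper39.FT.Fin2
import Pool.Agent.Helper39.FT.Stm2
import Pool.Agent.Helper83.FT.ALG
import Pool.Graph.R_seed8.Y791.BC.AlgE

/-!
# The values are algebraic
-/

set_option autoImplicit false
set_option linter.unusedSectionVars false

open Polynomial IsDedekindDomain NumberField

namespace Pool.Agent.Helper39.FT

open Pool.Agent.TH954 Pool.Agent.Y791.BF Pool.Agent.Y791.BC.Leg
open Pool.Agent.Y791.BC (S_EmbP S_ConjA)

section alg

variable {K : Type} [Field K] [CharZero K] [hess : Algebra.EssFiniteType ℚ K]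
  {F0 : Type} [Field F0] [Algebra (RatFunc K) F0] [CharZero F0] [CharZero (RatFunc K)]
  (q : ∀ i : PlF (RatFunc K), Plc (RatFunc K) F0 i.Lv)

/-- the class of a value -/
lemma val_class {L : Type} [Field L] [Algebra K L] {t : L} (ht : Transcendental K t) {N : ℕ}
    (hN : 0 < N) {A G1 G2 h : K[X]} {d : K} (hG1 : G1 ≠ 0)
    (e : A * G2 * G1 ^ (N - 1) = C d * h ^ N) {u γ : L} (hu : u = aeval t A * γ ^ N) :
    ∃ γ : L, u * aeval t G2 = algebraMap K L d * aeval t G1 * γ ^ N := by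
  have h1 : aeval t G1 ≠ 0 := fun h0 => hG1 ((transcendental_iff.1 ht) G1 h0)
  refine ⟨γ * aeval t h / aeval t G1, ?_⟩
  have e1 := congrArg (aeval t) e
  rw [map_mul, map_mul, map_pow, map_mul, map_pow, aeval_C] at e1
  have h2 : aeval t G1 ^ N ≠ 0 := pow_ne_zero _ h1
  rw [div_pow, mul_pow, hu, mul_div_assoc', eq_div_iff h2]
  have h3 : aeval t G1 ^ N = aeval t G1 ^ (N - 1) * aeval t G1 := by
    rw [← pow_succ]
    congr 1
    omega
  rw [h3]
  linear_combination γ ^ N * aeval t G1 * e1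

/-- infinite values -/
lemma inf_class {L : Type} [Field L] [Algebra K L] {t : L} (ht : Transcendental K t) {N : ℕ}
    (hN : 0 < N) {A H G1 G2 G3 G4 h h' : K[X]} {d d' : K} (hG1 : G1 ≠ 0) (hG3 : G3 ≠ 0)
    (hh : h ≠ 0)
    (e : A * G2 * G1 ^ (N - 1) = C d * h ^ N) (e' : H * G4 * G3 ^ (N - 1) = C d' * h' ^ N) {γ : L}
    (hu : aeval t A = aeval t H * γ ^ N) :
    ∃ γ : L, algebraMap K L d * aeval t G4 * aeval t G1 =
      algebraMap K L d' * aeval t G3 * aeval t G2 * γ ^ N := by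
  have h1 : aeval t G1 ≠ 0 := fun h0 => hG1 ((transcendental_iff.1 ht) G1 h0)
  have h3 : aeval t G3 ≠ 0 := fun h0 => hG3 ((transcendental_iff.1 ht) G3 h0)
  have hh0 : aeval t h ≠ 0 := fun h0 => hh ((transcendental_iff.1 ht) h h0)
  refine ⟨γ * aeval t h' * aeval t G1 / (aeval t G3 * aeval t h), ?_⟩
  have e1 := congrArg (aeval t) e
  rw [map_mul, map_mul, map_pow, map_mul, map_pow, aeval_C] at e1
  have e2 := congrArg (aeval t) e'
  rw [map_mul, map_mul, map_pow, map_mul, map_pow, aeval_C] at e2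
  have hN1 : ∀ x : L, x ^ N = x ^ (N - 1) * x := by
    intro x
    rw [← pow_succ]
    congr 1
    omega
  rw [div_pow, mul_pow, mul_pow, mul_pow, mul_div_assoc', eq_div_iff
    (mul_ne_zero (pow_ne_zero _ h3) (pow_ne_zero _ hh0))]
  rw [hN1 (aeval t G1), hN1 (aeval t G3)]
  generalize aeval t G1 ^ (N - 1) = g1 at *
  generalize aeval t G3 ^ (N - 1) = g3 at *
  generalize aeval t h ^ N = H0 at *
  generalize aeval t h' ^ N = H1 at *
  generalize γ ^ N = w at *
  linear_combination (-(aeval t G4) * aeval t G1 * g3 * aeval t G3) * e1 +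
    (aeval t G3 * aeval t G2 * w * g1 * aeval t G1) * e2 +
    (g3 * aeval t G3 * aeval t G4 * aeval t G1 * aeval t G2 * g1) * hu

include hess in
/-- the values of a function with good reductions are algebraic -/
theorem algAt (hNRM : S_NRM) (hMAS : S_MAS) (hLFT : S_LFT) (hINT : S_INT)
    (hALG : Pool.Agent.Helper83.FT.S_ALG2)
    (hF : KumF K F0)
    (hint : ∀ x : F0, IsAlgebraic (RatFunc K) x → ∃ c, algebraMap (RatFunc K) F0 c = x)
    {y : F0} (hyt : Transcendental (RatFunc K) y) (hy : AllGood q y) (i : PlF K) :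
    AlgAt q y i := by
  classical
  have hy0 : y ≠ 0 := by
    rintro rfl
    exact hyt isAlgebraic_zero
  have hy1 : y - 1 ≠ 0 := by
    intro h
    rw [sub_eq_zero] at h
    rw [h] at hyt
    exact hyt isAlgebraic_one
  have cls : ∀ f : F0, f ≠ 0 → ∃ A : ℕ → K[X], ∀ N : ℕ, 0 < N → Cls N (A N) f := by
    intro f hf
    have h1 : ∀ N : ℕ, ∃ A : K[X], 0 < N → Cls N A f := by
      intro N
      by_cases hN : 0 < N
      · obtain ⟨c, g, hc, h⟩ := hF f hf N hN
        exact ⟨c, fun _ => ⟨hc, g, h⟩⟩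
      · exact ⟨0, fun h => absurd h hN⟩
    choose A hA using h1
    exact ⟨A, hA⟩
  obtain ⟨A, hA⟩ := cls y hy0
  obtain ⟨H, hH⟩ := cls (y - 1) hy1
  have hc : Cl y A H := ⟨hA, hH⟩
  obtain ⟨G1, G2, hG1, hG2, hG⟩ := hINT K A (B0 A H) (fun N hN => (hA N hN).1)
    (fun N M hN hM ρ => cls_compat hint hy0 hA hN hM ρ)
    (fun N hN ρ => smallA q hNRM hMAS hLFT hy hc hN ρ)
  obtain ⟨G3, G4, hG3, hG4, hG'⟩ := hINT K H (B0 A H) (fun N hN => (hH N hN).1)
    (fun N M hN hM ρ => cls_compat hint hy1 hH hN hM ρ)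
    (fun N hN ρ => smallH q hNRM hMAS hLFT hy hc hN ρ)
  intro t ht u hu
  obtain ⟨P, Q, hQ, hPQ⟩ := hALG K i (VV q y i) G1 G2 G3 G4 hG1 hG2 hG3 hG4
    (Or.inl (not_const q hNRM hMAS hy hc hG1 hG2 hG)) (fun N hN => by
      obtain ⟨d, h, hd, hh, e⟩ := hG N hN
      obtain ⟨d', h', hd', hh', e'⟩ := hG' N hN
      refine ⟨d, d', hd, hd', fun t ht u hu => ⟨?_, ?_⟩, fun t ht hn => ?_⟩
      · obtain ⟨γ, hγ⟩ := cls_val q ht hN (hA N hN) (vv_val q ht hu)
        exact val_class ht hN hG1 e hγ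
      · obtain ⟨γ, hγ⟩ := cls_val q ht hN (hH N hN) ((vv_val q ht hu).sub Plc.val_one)
        exact val_class ht hN hG3 e' hγ
      · obtain ⟨γ, hγ⟩ := cls_inf q ht hN (hA N hN) (hH N hN) ((VV_none ht).1 hn)
        exact inf_class ht hN hG1 hG3 hh e e' hγ) t ht u ((VV_some ht).2 hu)
  have hQ0 : aeval t Q ≠ 0 := fun h0 => hQ ((transcendental_iff.1 ht) Q h0)
  have e : u = algebraMap (RatFunc K) (plT i ht).Lv
      (algebraMap K[X] (RatFunc K) P / algebraMap K[X] (RatFunc K) Q) := by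
    rw [map_div₀, algT_poly, algT_poly, eq_div_iff hQ0]
    exact hPQ
  rw [e]
  exact isAlgebraic_algebraMap _

end alg

open Pool.Agent.Y791.BS in
/-- **The function which vanishes at all places.** -/
theorem all (hEmbP : S_EmbP) (hConj : S_ConjA) (hSYS : S_SYS) (hNRM : S_NRM) (hMAS : S_MAS)
    (hLFT : S_LFT) (hINT : S_INT) (hALG : Pool.Agent.Helper83.FT.S_ALG2) : S_ALL := by
  intro K _ _ hess M _ _ _ _ A pl hpl x hx hxt
  have hch : CharZero (RatFunc K) :=
    charZero_of_injective_algebraMap (algebraMap K (RatFunc K)).injective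
  have hchi : ∀ i : PlF (RatFunc K), CharZero i.Lv := fun i => charZero_compl i.v
  choose q _ hqv using fun i : PlF (RatFunc K) => exists_fixPlc A (hpl i)
  have hchF : CharZero A.fix :=
    charZero_of_injective_algebraMap (algebraMap (RatFunc K) A.fix).injective
  have hint : ∀ x : A.fix, IsAlgebraic (RatFunc K) x → ∃ c, algebraMap (RatFunc K) A.fix c = x := by
    intro x hx
    obtain ⟨w, hw⟩ := alg_range A.j (hx.algHom A.fix.val)
    have hw' : A.j w = (x : M) := hw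
    obtain ⟨c, hc⟩ := A.fix_j (z := w) (by rw [hw']; exact x.2)
    refine ⟨c, Subtype.ext ?_⟩
    change algebraMap (RatFunc K) M c = (x : M)
    rw [← hw', ← hc, A.j.commutes]
  have hF := kumF A
  obtain ⟨y, hyt, hy⟩ := exists_allGood q hSYS hF (x := (⟨x, hx⟩ : A.fix))
    (fun h => hxt (h.algHom A.fix.val))
  obtain ⟨t, ht0, ht⟩ := alg_zero0 (K := K) (F0 := A.fix) (q := q) hEmbP hConj Nat.prime_two hF
    hint hyt (fun i _ => algAt q hNRM hMAS hLFT hINT hALG hF hint hyt hy i)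
  refine ⟨(t : M), fun h => ht0 (Subtype.ext h), fun i => ?_⟩
  have h := (hqv i t 0).1 (ht i)
  rwa [map_zero] at h

end Pool.Agent.Helper39.FT
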