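import Pool.Agent.Helper39.FT.Defs

/-!
# The local lemma
-/

set_option autoImplicit false

open Polynomial

namespace Pool.Agent.Helper39.FT.Loc

open Pool.Agent.Y791.BF

variable {L : Type} [NormedField L] [IsUltrametricDist L] {π : L} (hπ0 : π ≠ 0) (hπ1 : ‖π‖ < 1)
  (hπ : ∀ w : L, w ≠ 0 → ∃ n : ℤ, ‖w‖ = ‖π‖ ^ n)

include hπ0 hπ1 hπ in
/-- discreteness -/
lemma disc {x : L} {n : ℤ} (h : ‖x‖ < ‖π‖ ^ n) : ‖x‖ ≤ ‖π‖ ^ (n + 1) := by
  have hp : 0 < ‖π‖ := norm_pos_iff.2 hπ0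
  by_cases hx : x = 0
  · rw [hx, norm_zero]
    positivity
  · obtain ⟨k, hk⟩ := hπ x hx
    rw [hk] at h ⊢
    have h1 : n < k := by
      by_contra hcon
      push Not at hcon
      exact absurd (zpow_le_zpow_right_of_le_one₀ hp hπ1.le hcon) (not_le.2 h)
    exact zpow_le_zpow_right_of_le_one₀ hp hπ1.le (by omega)

include hπ0 hπ1 hπ in
lemma disc0 {x : L} (h : ‖x‖ < 1) : ‖x‖ ≤ ‖π‖ := by
  have h1 := disc hπ0 hπ1 hπ (x := x) (n := 0) (by rwa [zpow_zero])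
  rwa [zero_add, zpow_one] at h1

include hπ0 hπ1 hπ in
/-- cubes with norm less than one are small -/
lemma cube_small {u c γ : L} (hc : ‖c‖ = 1) (h : u = c * γ ^ 3) (hu : ‖u‖ < 1) :
    ‖u‖ ≤ ‖π‖ ^ 3 := by
  have h1 : ‖u‖ = ‖γ‖ ^ 3 := by rw [h, norm_mul, hc, one_mul, norm_pow]
  have h2 : ‖γ‖ < 1 := by
    by_contra hcon
    push Not at hcon
    have := one_le_pow₀ hcon (n := 3)
    rw [← h1] at this
    linarith
  rw [h1]
  exact pow_le_pow_left₀ (norm_nonneg _) (disc0 hπ0 hπ1 hπ h2) 3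

include hπ0 hπ1 hπ in
/-- cubes with norm greater than one are large -/
lemma cube_large {u c γ : L} (hc : ‖c‖ = 1) (h : u = c * γ ^ 3) (hu : 1 < ‖u‖) :
    ‖u⁻¹‖ ≤ ‖π‖ ^ 3 := by
  refine cube_small hπ0 hπ1 hπ (c := c⁻¹) (γ := γ⁻¹) (by rw [norm_inv, hc, inv_one]) ?_ ?_
  · rw [h, mul_inv, inv_pow]
  · rw [norm_inv]
    exact inv_lt_one_of_one_lt₀ hu

variable {p : ℕ} (hp : p.Prime) (hpL : ‖(p : L)‖ < 1)

/-- the binomial theorem -/
lemma norm_natCast_le (n : ℕ) : ‖(n : L)‖ ≤ 1 := by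
  induction n with
  | zero => simp
  | succ n ih =>
    push_cast
    exact (IsUltrametricDist.norm_add_le_max _ _).trans (max_le ih norm_one.le)

include hπ0 hπ1 hπ hp hpL in
/-- `p`-th powers of elements near one -/
lemma pow_p_near {x : L} {j : ℕ} (hj : 0 < j) (h : ‖x - 1‖ ≤ ‖π‖ ^ j) :
    ‖x ^ p - 1‖ ≤ ‖π‖ ^ (j + 1) := by
  have hp0 : 0 < ‖π‖ := norm_pos_iff.2 hπ0
  have hpπ : ‖(p : L)‖ ≤ ‖π‖ := disc0 hπ0 hπ1 hπ hpL
  obtain ⟨y, rfl⟩ : ∃ y, x = 1 + y := ⟨x - 1, by ring⟩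
  have hy : ‖y‖ ≤ ‖π‖ ^ j := by
    have e : (1 + y) - 1 = y := by ring
    rwa [e] at h
  have hy1 : ‖y‖ ≤ 1 := hy.trans (pow_le_one₀ hp0.le hπ1.le)
  have hjj : ‖π‖ ^ j ≤ ‖π‖ := by
    calc ‖π‖ ^ j ≤ ‖π‖ ^ 1 := pow_le_pow_of_le_one hp0.le hπ1.le hj
      _ = ‖π‖ := pow_one _
  have e : (1 + y) ^ p - 1 = ∑ n ∈ Finset.range p, y ^ (n + 1) * (p.choose (n + 1) : L) := by
    rw [add_comm 1 y, add_pow, Finset.sum_range_succ']
    simp
  rw [e]
  refine IsUltrametricDist.norm_sum_le_of_forall_le_of_nonneg (by positivity) fun n hn => ?_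
  rw [Finset.mem_range] at hn
  rw [norm_mul, norm_pow]
  by_cases hnp : n + 1 = p
  · have h2 : 2 ≤ n + 1 := by rw [hnp]; exact hp.two_le
    calc ‖y‖ ^ (n + 1) * ‖((p.choose (n + 1) : ℕ) : L)‖ ≤ ‖y‖ ^ 2 * 1 := by
          refine mul_le_mul (pow_le_pow_of_le_one (norm_nonneg _) hy1 h2) (norm_natCast_le _)
            (norm_nonneg _) (by positivity)
      _ = ‖y‖ * ‖y‖ := by ring
      _ ≤ ‖π‖ ^ j * ‖π‖ := mul_le_mul hy (hy.trans hjj) (norm_nonneg _) (by positivity)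
      _ = ‖π‖ ^ (j + 1) := (pow_succ _ _).symm
  · obtain ⟨c, hc⟩ : p ∣ p.choose (n + 1) := hp.dvd_choose_self (by omega) (by omega)
    rw [hc, Nat.cast_mul, norm_mul]
    calc ‖y‖ ^ (n + 1) * (‖(p : L)‖ * ‖(c : L)‖) ≤ ‖y‖ ^ 1 * (‖π‖ * 1) := by
          refine mul_le_mul (pow_le_pow_of_le_one (norm_nonneg _) hy1 (by omega))
            (mul_le_mul hpπ (norm_natCast_le _) (norm_nonneg _) hp0.le) (by positivity)
            (by positivity)
      _ ≤ ‖π‖ ^ j * ‖π‖ := by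
          rw [pow_one, mul_one]
          exact mul_le_mul_of_nonneg_right hy hp0.le
      _ = ‖π‖ ^ (j + 1) := (pow_succ _ _).symm

include hπ0 hπ1 hπ hp hpL in
lemma pow_pp_near {x : L} (h : ‖x - 1‖ < 1) : ‖x ^ p ^ 2 - 1‖ ≤ ‖π‖ ^ 3 := by
  have h1 : ‖x - 1‖ ≤ ‖π‖ ^ 1 := by
    rw [pow_one]
    exact disc0 hπ0 hπ1 hπ h
  have h2 := pow_p_near hπ0 hπ1 hπ hp hpL one_pos h1
  have h3 := pow_p_near hπ0 hπ1 hπ hp hpL two_pos h2
  have e : x ^ p ^ 2 = (x ^ p) ^ p := by rw [← pow_mul, sq]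
  rw [e]
  exact h3

variable {E : Type} [Field E] [CharP E p] (res : ball1 L →+* E)
  (hres : ∀ y, res y = 0 ↔ ‖(y : L)‖ < 1)

include hres in
lemma norm_one_of {y : ball1 L} (h : res y ≠ 0) : ‖(y : L)‖ = 1 := by
  refine le_antisymm y.2 ?_
  by_contra hcon
  push Not at hcon
  exact h ((hres y).2 hcon)

include hres in
lemma res_eq_iff {x y : ball1 L} : res x = res y ↔ ‖(x : L) - y‖ < 1 := by
  rw [← sub_eq_zero, ← map_sub, hres]
  rfl

include hπ0 hπ1 hπ hp hpL hres in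
/-- quotients which are powers -/
lemma ratio {u u' A A' : ball1 L} {g : L} (hu : res u ≠ 0) (hA : res A ≠ 0)
    (h1 : res u = res u') (h2 : res A = res A') (h : (u' : L) * A = u * A' * g ^ p ^ 2) :
    ‖(u' : L) * A - u * A'‖ ≤ ‖π‖ ^ 3 := by
  have nu := norm_one_of res hres hu
  have nA := norm_one_of res hres hA
  have nu' := norm_one_of res hres (h1 ▸ hu : res u' ≠ 0)
  have nA' := norm_one_of res hres (h2 ▸ hA : res A' ≠ 0)
  have hp2 : p ^ 2 ≠ 0 := pow_ne_zero _ hp.ne_zero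
  have ng : ‖g‖ = 1 := by
    have h3 := congrArg norm h
    rw [norm_mul, norm_mul, norm_mul, nu, nA, nu', nA', one_mul, one_mul, norm_pow] at h3
    exact (pow_eq_one_iff_of_nonneg (norm_nonneg _) hp2).1 h3.symm
  set G : ball1 L := ⟨g, ng.le⟩ with hG
  have h4 : u' * A = u * A' * G ^ p ^ 2 := Subtype.ext h
  have h5 : res G ^ p ^ 2 = 1 := by
    have h6 := congrArg res h4
    rw [map_mul, map_mul, map_mul, map_pow, ← h1, ← h2] at h6
    have h7 : res u * res A ≠ 0 := mul_ne_zero hu hA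
    exact (mul_right_eq_self₀.1 h6.symm).resolve_right h7
  have h6 : res G = 1 := by
    have hfact : Fact p.Prime := ⟨hp⟩
    have h7 : (res G - 1) ^ p ^ 2 = 0 := by
      rw [sub_pow_char_pow, h5, one_pow, sub_self]
    exact sub_eq_zero.1 (pow_eq_zero_iff hp2 |>.1 h7)
  have h7 : ‖g - 1‖ < 1 := by
    have h8 := (res_eq_iff res hres (x := G) (y := 1)).1 (by rw [h6, map_one])
    exact h8
  have h8 := pow_pp_near hπ0 hπ1 hπ hp hpL h7
  rw [h]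
  have e : (u : L) * A' * g ^ p ^ 2 - u * A' = u * A' * (g ^ p ^ 2 - 1) := by ring
  rw [e, norm_mul, norm_mul, nu, nA', one_mul, one_mul]
  exact h8

end Pool.Agent.Helper39.FT.Loc
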