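import Pool.Agent.Helper39.FT.Loc1

/-!
# The local lemma, second part
-/

set_option autoImplicit false
set_option linter.unusedSectionVars false

open Polynomial

namespace Pool.Agent.Helper39.FT.Loc

open Pool.Agent.Y791.BF

variable {L : Type} [NormedField L] [IsUltrametricDist L] {π : L} (hπ0 : π ≠ 0) (hπ1 : ‖π‖ < 1)
  (hπ : ∀ w : L, w ≠ 0 → ∃ n : ℤ, ‖w‖ = ‖π‖ ^ n)
  {p : ℕ} (hp : p.Prime) (hpL : ‖(p : L)‖ < 1)
  {E : Type} [Field E] [CharP E p] (res : ball1 L →+* E)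
  (hres : ∀ y, res y = 0 ↔ ‖(y : L)‖ < 1)

include hres in
lemma res_eval (t : ball1 L) (P : (ball1 L)[X]) : res (P.eval t) = (P.map res).eval (res t) := by
  rw [eval_map, eval₂_at_apply]

/-- the first order expansion -/
lemma expand (P : (ball1 L)[X]) (t d : ball1 L) :
    ‖((P.eval (t + d) : ball1 L) : L) - (P.eval t : ball1 L) - (derivative P).eval t * d‖ ≤
      ‖(d : L)‖ ^ 2 := by
  obtain ⟨k, hk⟩ := Polynomial.binomExpansion P t d
  rw [hk]
  have e : (((P.eval t + (derivative P).eval t * d + k * d ^ 2 : ball1 L) : ball1 L) : L) -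
      (P.eval t : ball1 L) - ((derivative P).eval t : ball1 L) * (d : L) = k * d ^ 2 := by
    push_cast
    ring
  rw [e, norm_mul, norm_pow]
  calc ‖(k : L)‖ * ‖(d : L)‖ ^ 2 ≤ 1 * ‖(d : L)‖ ^ 2 :=
        mul_le_mul_of_nonneg_right k.2 (by positivity)
    _ = _ := one_mul _

lemma add3 {x y z : L} {c : ℝ} (hx : ‖x‖ ≤ c) (hy : ‖y‖ ≤ c) (hz : ‖z‖ ≤ c) : ‖x + y + z‖ ≤ c :=
  (IsUltrametricDist.norm_add_le_max _ _).trans
    (max_le ((IsUltrametricDist.norm_add_le_max _ _).trans (max_le hx hy)) hz)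

lemma sub2 {x y : L} {c : ℝ} (hx : ‖x‖ ≤ c) (hy : ‖y‖ ≤ c) : ‖x - y‖ ≤ c := by
  rw [sub_eq_add_neg]
  exact (IsUltrametricDist.norm_add_le_max _ _).trans (max_le hx (by rwa [norm_neg]))

include hπ0 hπ1 hπ hp hpL hres in
/-- the derivative of a function with a given class -/
lemma deriv_class {u u' t d : ball1 L} {α : L} {P P3 : (ball1 L)[X]}
    (hd : ‖π‖ ^ 2 ≤ ‖(d : L)‖) (hd1 : ‖(d : L)‖ ≤ ‖π‖)
    (hP : res (P.eval t) ≠ 0) (hP3 : res (P3.eval t) ≠ 0)
    (huu : res u = res u')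
    (hc : (u : L) ≠ 0 → ∃ γ : L, (u : L) = α * (P.eval t : ball1 L) * γ ^ p ^ 2)
    (hc' : (u' : L) ≠ 0 → ∃ γ : L, (u' : L) = α * (P.eval (t + d) : ball1 L) * γ ^ p ^ 2)
    (h3 : ∃ γ : L, (u : L) = (P3.eval t : ball1 L) * γ ^ 3)
    (h3' : ∃ γ : L, (u' : L) = (P3.eval (t + d) : ball1 L) * γ ^ 3) :
    ‖((u' : L) - u) * (P.eval t : ball1 L) - u * (derivative P).eval t * d‖ ≤
      ‖π‖ * ‖(d : L)‖ := by
  have hπp : 0 < ‖π‖ := norm_pos_iff.2 hπ0
  have hd3 : ‖π‖ ^ 3 ≤ ‖π‖ * ‖(d : L)‖ := by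
    calc ‖π‖ ^ 3 = ‖π‖ * ‖π‖ ^ 2 := by ring
      _ ≤ _ := mul_le_mul_of_nonneg_left hd hπp.le
  have hdd : ‖(d : L)‖ ^ 2 ≤ ‖π‖ * ‖(d : L)‖ := by
    rw [sq]
    exact mul_le_mul_of_nonneg_right hd1 (norm_nonneg _)
  have hrd : res d = 0 := (hres d).2 (hd1.trans_lt hπ1)
  have hPd : res (P.eval (t + d)) = res (P.eval t) := by
    rw [res_eval res hres, res_eval res hres, map_add, hrd, add_zero]
  have hP3d : res (P3.eval (t + d)) = res (P3.eval t) := by
    rw [res_eval res hres, res_eval res hres, map_add, hrd, add_zero]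
  by_cases hu : res u = 0
  · -- small values
    have hu' : res u' = 0 := huu ▸ hu
    obtain ⟨γ, hγ⟩ := h3
    obtain ⟨γ', hγ'⟩ := h3'
    have n1 : ‖(u : L)‖ ≤ ‖π‖ ^ 3 := cube_small hπ0 hπ1 hπ (norm_one_of res hres hP3) hγ
      ((hres u).1 hu)
    have n2 : ‖(u' : L)‖ ≤ ‖π‖ ^ 3 := cube_small hπ0 hπ1 hπ
      (norm_one_of res hres (by rw [hP3d]; exact hP3)) hγ' ((hres u').1 hu')
    have n3 : ‖(u' : L) - u‖ ≤ ‖π‖ ^ 3 := sub2 n2 n1
    refine sub2 ?_ ?_
    · rw [norm_mul]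
      calc _ ≤ ‖π‖ ^ 3 * 1 := mul_le_mul n3 (P.eval t).2 (norm_nonneg _) (by positivity)
        _ ≤ _ := by rw [mul_one]; exact hd3
    · rw [norm_mul, norm_mul]
      have n4 : ‖(u : L)‖ ≤ ‖π‖ := n1.trans (by
        calc ‖π‖ ^ 3 ≤ ‖π‖ ^ 1 := pow_le_pow_of_le_one hπp.le hπ1.le (by omega)
          _ = _ := pow_one _)
      calc _ ≤ ‖π‖ * 1 * ‖(d : L)‖ := by
            refine mul_le_mul_of_nonneg_right ?_ (norm_nonneg _)
            exact mul_le_mul n4 ((derivative P).eval t).2 (norm_nonneg _) hπp.le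
        _ = _ := by rw [mul_one]
  · have hu' : res u' ≠ 0 := huu ▸ hu
    have nu := norm_one_of res hres hu
    have nu' := norm_one_of res hres hu'
    have hu0 : (u : L) ≠ 0 := by
      intro h
      rw [h, norm_zero] at nu
      exact zero_ne_one nu
    have hu0' : (u' : L) ≠ 0 := by
      intro h
      rw [h, norm_zero] at nu'
      exact zero_ne_one nu'
    obtain ⟨γ, hγ⟩ := hc hu0
    obtain ⟨γ', hγ'⟩ := hc' hu0'
    have hγ0 : γ ≠ 0 := by
      rintro rfl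
      rw [zero_pow (pow_ne_zero _ hp.ne_zero), mul_zero] at hγ
      exact hu0 hγ
    have h1 := ratio hπ0 hπ1 hπ hp hpL res hres (u := u) (u' := u') (A := P.eval t)
      (A' := P.eval (t + d)) (g := γ' / γ) hu hP huu hPd.symm (by
        rw [div_pow]
        have : γ ^ p ^ 2 ≠ 0 := pow_ne_zero _ hγ0
        field_simp
        rw [hγ, hγ']
        ring)
    have h2 := expand P t d
    have e : ((u' : L) - u) * (P.eval t : ball1 L) - u * (derivative P).eval t * d =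
        ((u' : L) * (P.eval t : ball1 L) - u * (P.eval (t + d) : ball1 L)) +
        u * (((P.eval (t + d) : ball1 L) : L) - (P.eval t : ball1 L) -
          (derivative P).eval t * d) := by ring
    rw [e]
    refine (IsUltrametricDist.norm_add_le_max _ _).trans (max_le (h1.trans hd3) ?_)
    rw [norm_mul, nu, one_mul]
    exact h2.trans hdd

include hπ0 hπ1 hπ hp hpL hres in
/-- two values with the same residue -/
lemma same_res {u u' t d : ball1 L} {α β : L} {A H A3 H3 : (ball1 L)[X]}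
    (hd : ‖π‖ ^ 2 ≤ ‖(d : L)‖) (hd1 : ‖(d : L)‖ ≤ ‖π‖)
    (hA : res (A.eval t) ≠ 0) (hH : res (H.eval t) ≠ 0)
    (hA3 : res (A3.eval t) ≠ 0) (hH3 : res (H3.eval t) ≠ 0)
    (huu : res u = res u')
    (hc : (u : L) ≠ 0 → ∃ γ : L, (u : L) = α * (A.eval t : ball1 L) * γ ^ p ^ 2)
    (hc' : (u' : L) ≠ 0 → ∃ γ : L, (u' : L) = α * (A.eval (t + d) : ball1 L) * γ ^ p ^ 2)
    (h3 : ∃ γ : L, (u : L) = (A3.eval t : ball1 L) * γ ^ 3)
    (h3' : ∃ γ : L, (u' : L) = (A3.eval (t + d) : ball1 L) * γ ^ 3)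
    (kc : (u : L) ≠ 1 → ∃ γ : L, (u : L) - 1 = β * (H.eval t : ball1 L) * γ ^ p ^ 2)
    (kc' : (u' : L) ≠ 1 → ∃ γ : L, (u' : L) - 1 = β * (H.eval (t + d) : ball1 L) * γ ^ p ^ 2)
    (k3 : ∃ γ : L, (u : L) - 1 = (H3.eval t : ball1 L) * γ ^ 3)
    (k3' : ∃ γ : L, (u' : L) - 1 = (H3.eval (t + d) : ball1 L) * γ ^ 3) :
    res u * res ((derivative A).eval t) * res (H.eval t) =
      (res u - 1) * res ((derivative H).eval t) * res (A.eval t) := by
  have hπp : 0 < ‖π‖ := norm_pos_iff.2 hπ0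
  have hdp : 0 < ‖(d : L)‖ := lt_of_lt_of_le (by positivity) hd
  have f1 := deriv_class hπ0 hπ1 hπ hp hpL res hres hd hd1 hA hA3 huu hc hc' h3 h3'
  have f2 := deriv_class hπ0 hπ1 hπ hp hpL res hres (u := u - 1) (u' := u' - 1) (α := β) hd hd1
    hH hH3 (by rw [map_sub, map_sub, huu])
    (fun h => by
      obtain ⟨γ, hγ⟩ := kc (fun h' => h (by push_cast; rw [h', sub_self]))
      exact ⟨γ, by push_cast; exact hγ⟩)
    (fun h => by
      obtain ⟨γ, hγ⟩ := kc' (fun h' => h (by push_cast; rw [h', sub_self]))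
      exact ⟨γ, by push_cast; exact hγ⟩)
    (by obtain ⟨γ, hγ⟩ := k3; exact ⟨γ, by push_cast; exact hγ⟩)
    (by obtain ⟨γ, hγ⟩ := k3'; exact ⟨γ, by push_cast; exact hγ⟩)
  have e1 : (((u' - 1 : ball1 L) : L) - ((u - 1 : ball1 L) : L)) = (u' : L) - u := by
    push_cast
    ring
  rw [e1] at f2
  -- combine
  set a : L := ((A.eval t : ball1 L) : L)
  set h : L := ((H.eval t : ball1 L) : L)
  set a' : L := (((derivative A).eval t : ball1 L) : L)
  set h' : L := (((derivative H).eval t : ball1 L) : L)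
  have e2 : ((u - 1 : ball1 L) : L) = (u : L) - 1 := by push_cast; ring
  rw [e2] at f2
  have g1 : ‖(((u : L) * a' * h - (u - 1) * h' * a) * d)‖ ≤ ‖π‖ * ‖(d : L)‖ := by
    have e3 : ((u : L) * a' * h - (u - 1) * h' * a) * d =
        (((u' : L) - u) * h - (u - 1) * h' * d) * a -
          (((u' : L) - u) * a - u * a' * d) * h := by ring
    rw [e3]
    have na : ‖a‖ ≤ 1 := (A.eval t).2
    have nh : ‖h‖ ≤ 1 := (H.eval t).2
    refine sub2 ?_ ?_
    · rw [norm_mul]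
      calc _ ≤ ‖π‖ * ‖(d : L)‖ * 1 := mul_le_mul f2 na (norm_nonneg _) (by positivity)
        _ = _ := mul_one _
    · rw [norm_mul]
      calc _ ≤ ‖π‖ * ‖(d : L)‖ * 1 := mul_le_mul f1 nh (norm_nonneg _) (by positivity)
        _ = _ := mul_one _
  rw [norm_mul] at g1
  have g2 : ‖((u : L) * a' * h - (u - 1) * h' * a)‖ ≤ ‖π‖ := le_of_mul_le_mul_right g1 hdp
  have g3 : res (u * (derivative A).eval t * H.eval t) =
      res ((u - 1) * (derivative H).eval t * A.eval t) := by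
    rw [res_eq_iff res hres]
    push_cast
    exact g2.trans_lt hπ1
  rw [map_mul, map_mul, map_mul, map_mul, map_sub, map_one] at g3
  exact g3

include hπ0 hπ1 hπ hp hpL hres in
/-- two infinite values; `ρ` is `(u - 1) / u` -/
lemma same_inf {ρ ρ' t d : ball1 L} {α β : L} {A H : (ball1 L)[X]}
    (hd : ‖π‖ ^ 2 ≤ ‖(d : L)‖) (hd1 : ‖(d : L)‖ ≤ ‖π‖)
    (hA : res (A.eval t) ≠ 0) (hH : res (H.eval t) ≠ 0)
    (hρ : ‖(ρ : L) - 1‖ ≤ ‖π‖ ^ 3) (hρ' : ‖(ρ' : L) - 1‖ ≤ ‖π‖ ^ 3)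
    (hc : ∃ γ : L, (ρ : L) * (α * (A.eval t : ball1 L)) = β * (H.eval t : ball1 L) * γ ^ p ^ 2)
    (hc' : ∃ γ : L, (ρ' : L) * (α * (A.eval (t + d) : ball1 L)) =
      β * (H.eval (t + d) : ball1 L) * γ ^ p ^ 2) (hα : α ≠ 0) :
    res ((derivative A).eval t) * res (H.eval t) =
      res ((derivative H).eval t) * res (A.eval t) := by
  have hπp : 0 < ‖π‖ := norm_pos_iff.2 hπ0
  have hdp : 0 < ‖(d : L)‖ := lt_of_lt_of_le (by positivity) hd
  have hd3 : ‖π‖ ^ 3 ≤ ‖π‖ * ‖(d : L)‖ := by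
    calc ‖π‖ ^ 3 = ‖π‖ * ‖π‖ ^ 2 := by ring
      _ ≤ _ := mul_le_mul_of_nonneg_left hd hπp.le
  have hdd : ‖(d : L)‖ ^ 2 ≤ ‖π‖ * ‖(d : L)‖ := by
    rw [sq]
    exact mul_le_mul_of_nonneg_right hd1 (norm_nonneg _)
  have h31 : ‖π‖ ^ 3 < 1 := pow_lt_one₀ hπp.le hπ1 (by omega)
  have hrd : res d = 0 := (hres d).2 (hd1.trans_lt hπ1)
  have hAd : res (A.eval (t + d)) = res (A.eval t) := by
    rw [res_eval res hres, res_eval res hres, map_add, hrd, add_zero]
  have hHd : res (H.eval (t + d)) = res (H.eval t) := by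
    rw [res_eval res hres, res_eval res hres, map_add, hrd, add_zero]
  have r1 : res ρ = 1 := by
    rw [← map_one res, res_eq_iff res hres]
    exact hρ.trans_lt h31
  have r2 : res ρ' = 1 := by
    rw [← map_one res, res_eq_iff res hres]
    exact hρ'.trans_lt h31
  obtain ⟨γ, hγ⟩ := hc
  obtain ⟨γ', hγ'⟩ := hc'
  have nA := norm_one_of res hres hA
  have hA0 : ((A.eval t : ball1 L) : L) ≠ 0 := by
    intro h
    rw [h, norm_zero] at nA
    exact zero_ne_one nA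
  have hρ0 : (ρ : L) ≠ 0 := by
    intro h
    have : res ρ = 0 := by
      have : ρ = 0 := Subtype.ext h
      rw [this, map_zero]
    rw [r1] at this
    exact one_ne_zero this
  have hγ0 : γ ≠ 0 := by
    rintro rfl
    rw [zero_pow (pow_ne_zero _ hp.ne_zero), mul_zero] at hγ
    exact mul_ne_zero hρ0 (mul_ne_zero hα hA0) hγ
  have h1 := ratio hπ0 hπ1 hπ hp hpL res hres (u := ρ * A.eval t) (u' := ρ' * A.eval (t + d))
    (A := H.eval t) (A' := H.eval (t + d)) (g := γ' / γ) (by rw [map_mul, r1, one_mul]; exact hA)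
    hH (by rw [map_mul, map_mul, r1, r2, hAd]) hHd.symm (by
      rw [div_pow]
      have h2 : γ ^ p ^ 2 ≠ 0 := pow_ne_zero _ hγ0
      push_cast
      field_simp
      have e : α * ((ρ' : L) * (A.eval (t + d) : ball1 L) * (H.eval t : ball1 L) * γ ^ p ^ 2) =
          α * ((ρ : L) * (A.eval t : ball1 L) * (H.eval (t + d) : ball1 L) * γ' ^ p ^ 2) := by
        calc _ = ((ρ' : L) * (α * (A.eval (t + d) : ball1 L))) * ((H.eval t : ball1 L) *
              γ ^ p ^ 2) := by ring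
          _ = (β * (H.eval (t + d) : ball1 L) * γ' ^ p ^ 2) * ((H.eval t : ball1 L) *
              γ ^ p ^ 2) := by rw [hγ']
          _ = (β * (H.eval t : ball1 L) * γ ^ p ^ 2) * ((H.eval (t + d) : ball1 L) *
              γ' ^ p ^ 2) := by ring
          _ = ((ρ : L) * (α * (A.eval t : ball1 L))) * ((H.eval (t + d) : ball1 L) *
              γ' ^ p ^ 2) := by rw [hγ]
          _ = _ := by ring
      exact mul_left_cancel₀ hα e)
  have ea := expand A t d
  have eh := expand H t d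
  set a : L := ((A.eval t : ball1 L) : L) with ha
  set h : L := ((H.eval t : ball1 L) : L) with hh
  set a1 : L := ((A.eval (t + d) : ball1 L) : L) with ha1
  set h1' : L := ((H.eval (t + d) : ball1 L) : L) with hh1
  set a' : L := (((derivative A).eval t : ball1 L) : L)
  set h' : L := (((derivative H).eval t : ball1 L) : L)
  have na : ‖a‖ ≤ 1 := (A.eval t).2
  have nh : ‖h‖ ≤ 1 := (H.eval t).2
  have na1 : ‖a1‖ ≤ 1 := (A.eval (t + d)).2
  have nh1 : ‖h1'‖ ≤ 1 := (H.eval (t + d)).2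
  have g0 : ‖(ρ' : L) * a1 * h - ρ * a * h1'‖ ≤ ‖π‖ ^ 3 := by
    have e : (((ρ' * A.eval (t + d) : ball1 L) : L) * h - ((ρ * A.eval t : ball1 L) : L) * h1') =
        (ρ' : L) * a1 * h - ρ * a * h1' := by
      push_cast
      ring
    rw [← e]
    exact h1
  have g1 : ‖(a' * h - h' * a) * d‖ ≤ ‖π‖ * ‖(d : L)‖ := by
    have e3 : (a' * h - h' * a) * d =
        ((ρ' : L) * a1 * h - ρ * a * h1') + (((ρ : L) - 1) * (a * h1') - ((ρ' : L) - 1) * (a1 * h)) +
          ((h1' - h - h' * d) * a - (a1 - a - a' * d) * h) := by ring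
    rw [e3]
    refine add3 (g0.trans hd3) (sub2 ?_ ?_) (sub2 ?_ ?_)
    · rw [norm_mul, norm_mul]
      calc _ ≤ ‖π‖ ^ 3 * (1 * 1) := mul_le_mul hρ (mul_le_mul na nh1 (norm_nonneg _) zero_le_one)
            (by positivity) (by positivity)
        _ ≤ _ := by rw [mul_one, mul_one]; exact hd3
    · rw [norm_mul, norm_mul]
      calc _ ≤ ‖π‖ ^ 3 * (1 * 1) := mul_le_mul hρ' (mul_le_mul na1 nh (norm_nonneg _) zero_le_one)
            (by positivity) (by positivity)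
        _ ≤ _ := by rw [mul_one, mul_one]; exact hd3
    · rw [norm_mul]
      calc _ ≤ ‖(d : L)‖ ^ 2 * 1 := mul_le_mul eh na (norm_nonneg _) (by positivity)
        _ ≤ _ := by rw [mul_one]; exact hdd
    · rw [norm_mul]
      calc _ ≤ ‖(d : L)‖ ^ 2 * 1 := mul_le_mul ea nh (norm_nonneg _) (by positivity)
        _ ≤ _ := by rw [mul_one]; exact hdd
  rw [norm_mul] at g1
  have g2 : ‖(a' * h - h' * a)‖ ≤ ‖π‖ := le_of_mul_le_mul_right g1 hdp
  have g3 : res ((derivative A).eval t * H.eval t) =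
      res ((derivative H).eval t * A.eval t) := by
    rw [res_eq_iff res hres]
    push_cast
    exact g2.trans_lt hπ1
  rw [map_mul, map_mul] at g3
  exact g3

end Pool.Agent.Helper39.FT.Loc
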