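import Pool.Agent.Helper39.FT.Loc2

/-!
# The local lemma, third part
-/

set_option autoImplicit false
set_option linter.unusedSectionVars false

open Polynomial

namespace Pool.Agent.Helper39.FT.Loc

open Pool.Agent.Y791.BF

variable {L : Type} [NormedField L] [IsUltrametricDist L] {π : L} (hπ0 : π ≠ 0) (hπ1 : ‖π‖ < 1)
  (hπ : ∀ w : L, w ≠ 0 → ∃ n : ℤ, ‖w‖ = ‖π‖ ^ n)
  {p : ℕ} (hp : p.Prime) (hpL : ‖(p : L)‖ < 1)
  {E : Type} [Field E] [CharP E p] (res : ball1 L →+* E)
  (hres : ∀ y, res y = 0 ↔ ‖(y : L)‖ < 1)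

lemma norm_add_eq {x y : L} (h : ‖y‖ < ‖x‖) : ‖x + y‖ = ‖x‖ := by
  rw [IsUltrametricDist.norm_add_eq_max_of_norm_ne_norm h.ne']
  exact max_eq_left h.le

/-- the function of residues -/
noncomputable def rs (V : L → Option L) (t : L) : Option (Set.range res) :=
  open scoped Classical in
  if h : ∃ u : ball1 L, V t = some (u : L) then some ⟨res h.choose, ⟨_, rfl⟩⟩ else none

lemma rs_some {V : L → Option L} {t : L} {u : ball1 L} (h : V t = some (u : L)) :
    rs res V t = some ⟨res u, ⟨u, rfl⟩⟩ := by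
  unfold rs
  have h1 : ∃ u : ball1 L, V t = some (u : L) := ⟨u, h⟩
  rw [dif_pos h1]
  have h2 : h1.choose = u := by
    have h3 := h1.choose_spec
    have h4 : some (u : L) = some (h1.choose : L) := h.symm.trans h3
    rw [Option.some.injEq] at h4
    exact Subtype.ext h4.symm
  simp only [h2]

lemma rs_none {V : L → Option L} {t : L} (h : ∀ u : ball1 L, V t ≠ some (u : L)) :
    rs res V t = none := by
  unfold rs
  have h1 : ¬ ∃ u : ball1 L, V t = some (u : L) := by
    rintro ⟨u, hu⟩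
    exact h u hu
  rw [dif_neg h1]

include hπ0 hπ1 hres in
/-- two points with the same residue of the value -/
lemma pigeon {K : Type} [Field K] [Algebra K L]
    (hdense : ∀ (x : L) (ε : ℝ), 0 < ε → ∃ t, Transcendental K t ∧ ‖t - x‖ < ε)
    (hfin : (Set.range res).Finite) (V : L → Option L) (a0 : ball1 L) :
    ∃ t d : ball1 L, Transcendental K (t : L) ∧ Transcendental K ((t + d : ball1 L) : L) ∧
      res t = res a0 ∧ ‖π‖ ^ 2 ≤ ‖(d : L)‖ ∧ ‖(d : L)‖ ≤ ‖π‖ ∧
      rs res V t = rs res V ((t + d : ball1 L) : L) := by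
  classical
  have hπp : 0 < ‖π‖ := norm_pos_iff.2 hπ0
  have hfi : Finite (Set.range res) := hfin
  have hft : Fintype (Set.range res) := Fintype.ofFinite _
  set R := Set.range res with hR
  choose σ hσ using fun s : R => s.2
  let pi0 : ball1 L := ⟨π, hπ1.le⟩
  choose τ hτ1 hτ2 using fun s : R × R => hdense
    ((a0 + pi0 * σ s.1 + pi0 ^ 2 * σ s.2 : ball1 L) : L) (‖π‖ ^ 3) (by positivity)
  have hle3 : ‖π‖ ^ 3 < ‖π‖ ^ 2 := by
    have : ‖π‖ ^ 3 = ‖π‖ ^ 2 * ‖π‖ := by ring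
    rw [this]
    exact mul_lt_of_lt_one_right (by positivity) hπ1
  have hle2 : ‖π‖ ^ 2 < ‖π‖ := by
    rw [sq]
    exact mul_lt_of_lt_one_right hπp hπ1
  have hτ3 : ∀ s, ‖τ s‖ ≤ 1 := by
    intro s
    have e : τ s = (τ s - ((a0 + pi0 * σ s.1 + pi0 ^ 2 * σ s.2 : ball1 L) : L)) +
      ((a0 + pi0 * σ s.1 + pi0 ^ 2 * σ s.2 : ball1 L) : L) := by ring
    rw [e]
    refine (IsUltrametricDist.norm_add_le_max _ _).trans (max_le ?_
      (a0 + pi0 * σ s.1 + pi0 ^ 2 * σ s.2 : ball1 L).2)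
    exact (hτ2 s).le.trans (pow_le_one₀ hπp.le hπ1.le)
  have hcard : Fintype.card (Option R) < Fintype.card (R × R) := by
    rw [Fintype.card_option, Fintype.card_prod]
    have h2 : 2 ≤ Fintype.card R := by
      have h01 : (⟨res 0, ⟨0, rfl⟩⟩ : R) ≠ ⟨res 1, ⟨1, rfl⟩⟩ := by
        intro h
        have := congrArg Subtype.val h
        simp at this
      exact Fintype.one_lt_card_iff.2 ⟨_, _, h01⟩
    have h3 : ∀ n : ℕ, 2 ≤ n → n + 1 < n * n := fun n hn => by nlinarith
    exact h3 _ h2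
  obtain ⟨s, s', hss, hrs⟩ := Fintype.exists_ne_map_eq_of_card_lt (fun s => rs res V (τ s)) hcard
  let t : ball1 L := ⟨τ s, hτ3 s⟩
  let t' : ball1 L := ⟨τ s', hτ3 s'⟩
  have htd : t + (t' - t) = t' := by ring
  refine ⟨t, t' - t, hτ1 s, by rw [htd]; exact hτ1 s', ?_, ?_, ?_, by rw [htd]; exact hrs⟩
  · rw [res_eq_iff res hres]
    have e : (t : L) - a0 = (τ s - ((a0 + pi0 * σ s.1 + pi0 ^ 2 * σ s.2 : ball1 L) : L)) +
        π * σ s.1 + π ^ 2 * σ s.2 := by
      push_cast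
      change τ s - _ = _
      ring
    rw [e]
    have : ‖(τ s - ((a0 + pi0 * σ s.1 + pi0 ^ 2 * σ s.2 : ball1 L) : L)) +
        π * σ s.1 + π ^ 2 * σ s.2‖ ≤ ‖π‖ := by
      refine add3 ((hτ2 s).le.trans (hle3.le.trans hle2.le)) ?_ ?_
      · rw [norm_mul]
        exact mul_le_of_le_one_right hπp.le (σ s.1).2
      · rw [norm_mul, norm_pow]
        exact (mul_le_of_le_one_right (by positivity) (σ s.2).2).trans hle2.le
    exact this.trans_lt hπ1
  all_goals
    have hσne : ∀ a b : R, a ≠ b → ‖((σ a : ball1 L) : L) - σ b‖ = 1 := by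
      intro a b hab
      have h1 : ¬ ‖((σ a : ball1 L) : L) - σ b‖ < 1 := by
        rw [← res_eq_iff res hres, hσ, hσ]
        exact fun h => hab (Subtype.ext h)
      push Not at h1
      refine le_antisymm ?_ h1
      exact sub2 (σ a).2 (σ b).2
    have e : ((t' - t : ball1 L) : L) = π * (σ s'.1 - σ s.1) + (π ^ 2 * (σ s'.2 - σ s.2) +
        ((τ s' - ((a0 + pi0 * σ s'.1 + pi0 ^ 2 * σ s'.2 : ball1 L) : L)) -
        (τ s - ((a0 + pi0 * σ s.1 + pi0 ^ 2 * σ s.2 : ball1 L) : L)))) := by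
      push_cast
      change τ s' - τ s = _
      ring
    have n3 : ‖(τ s' - ((a0 + pi0 * σ s'.1 + pi0 ^ 2 * σ s'.2 : ball1 L) : L)) -
        (τ s - ((a0 + pi0 * σ s.1 + pi0 ^ 2 * σ s.2 : ball1 L) : L))‖ ≤ ‖π‖ ^ 3 :=
      sub2 (hτ2 s').le (hτ2 s).le
    have n2 : ‖π ^ 2 * (((σ s'.2 : ball1 L) : L) - σ s.2)‖ ≤ ‖π‖ ^ 2 := by
      rw [norm_mul, norm_pow]
      exact mul_le_of_le_one_right (by positivity) (sub2 (σ s'.2).2 (σ s.2).2)
    have key : ‖((t' - t : ball1 L) : L)‖ = ‖π‖ ∨ ‖((t' - t : ball1 L) : L)‖ = ‖π‖ ^ 2 := by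
      by_cases h1 : s'.1 = s.1
      · right
        have h2 : s'.2 ≠ s.2 := fun h => hss (Prod.ext h1.symm h.symm)
        rw [e, h1, sub_self, mul_zero, zero_add]
        have n2' : ‖π ^ 2 * (((σ s'.2 : ball1 L) : L) - σ s.2)‖ = ‖π‖ ^ 2 := by
          rw [norm_mul, norm_pow, hσne _ _ h2, mul_one]
        rw [h1] at n3
        rw [norm_add_eq (by rw [n2']; exact n3.trans_lt hle3), n2']
      · left
        have n1 : ‖π * (((σ s'.1 : ball1 L) : L) - σ s.1)‖ = ‖π‖ := by
          rw [norm_mul, hσne _ _ h1, mul_one]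
        rw [e, norm_add_eq, n1]
        rw [n1]
        exact (IsUltrametricDist.norm_add_le_max _ _).trans_lt
          (max_lt (n2.trans_lt hle2) (n3.trans_lt (hle3.trans hle2)))
  · rcases key with h | h
    · rw [h]
      exact hle2.le
    · rw [h]
  · rcases key with h | h
    · rw [h]
    · rw [h]
      exact hle2.le

include hπ0 hπ1 hπ hp hpL hres in
/-- **The local lemma.** -/
theorem loc_main {K : Type} [Field K] [Algebra K L]
    (hdense : ∀ (x : L) (ε : ℝ), 0 < ε → ∃ t, Transcendental K t ∧ ‖t - x‖ < ε)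
    (hfin : (Set.range res).Finite) (V : L → Option L) (a0 : ball1 L) {α β : L} (hα : α ≠ 0)
    {A H A3 H3 : (ball1 L)[X]}
    (hA : res (A.eval a0) ≠ 0) (hH : res (H.eval a0) ≠ 0)
    (hA3 : res (A3.eval a0) ≠ 0) (hH3 : res (H3.eval a0) ≠ 0)
    (cA : ∀ t : ball1 L, Transcendental K (t : L) → ∀ u, V t = some u → u ≠ 0 →
      ∃ γ : L, u = α * (A.eval t : ball1 L) * γ ^ p ^ 2)
    (cH : ∀ t : ball1 L, Transcendental K (t : L) → ∀ u, V t = some u → u ≠ 1 →
      ∃ γ : L, u - 1 = β * (H.eval t : ball1 L) * γ ^ p ^ 2)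
    (cN : ∀ t : ball1 L, Transcendental K (t : L) → V t = none →
      ∃ γ : L, α * (A.eval t : ball1 L) = β * (H.eval t : ball1 L) * γ ^ p ^ 2)
    (cA3 : ∀ t : ball1 L, Transcendental K (t : L) → ∀ u, V t = some u →
      ∃ γ : L, u = (A3.eval t : ball1 L) * γ ^ 3)
    (cH3 : ∀ t : ball1 L, Transcendental K (t : L) → ∀ u, V t = some u →
      ∃ γ : L, u - 1 = (H3.eval t : ball1 L) * γ ^ 3) :
    ∃ t : ball1 L, Transcendental K (t : L) ∧ res t = res a0 ∧
      ((∃ u : ball1 L, V t = some (u : L) ∧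
        res u * ((derivative A).map res).eval (res a0) * (H.map res).eval (res a0) =
          (res u - 1) * ((derivative H).map res).eval (res a0) * (A.map res).eval (res a0)) ∨
      ((V t = none ∨ ∃ u : L, V t = some u ∧ 1 < ‖u‖) ∧
        ((derivative A).map res).eval (res a0) * (H.map res).eval (res a0) =
          ((derivative H).map res).eval (res a0) * (A.map res).eval (res a0))) := by
  obtain ⟨t, d, ht, ht', hta, hd, hd1, hrs⟩ := pigeon hπ0 hπ1 res hres hdense hfin V a0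
  have hπp : 0 < ‖π‖ := norm_pos_iff.2 hπ0
  have hrd : res d = 0 := (hres d).2 (hd1.trans_lt hπ1)
  have ev : ∀ P : (ball1 L)[X], res (P.eval t) = (P.map res).eval (res a0) := fun P => by
    rw [res_eval res hres, hta]
  have ev0 : ∀ P : (ball1 L)[X], res (P.eval t) = res (P.eval a0) := fun P => by
    rw [ev, res_eval res hres]
  have ev' : ∀ P : (ball1 L)[X], res (P.eval (t + d)) = res (P.eval a0) := fun P => by
    rw [res_eval res hres, res_eval res hres, map_add, hrd, add_zero, hta]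
  refine ⟨t, ht, hta, ?_⟩
  by_cases hcase : ∃ u : ball1 L, V t = some (u : L)
  · obtain ⟨u, hu⟩ := hcase
    rw [rs_some res hu] at hrs
    obtain ⟨u', hu'⟩ : ∃ u' : ball1 L, V ((t + d : ball1 L) : L) = some (u' : L) := by
      by_contra hcon
      rw [rs_none res (fun u' h => hcon ⟨u', h⟩)] at hrs
      exact absurd hrs (by simp)
    rw [rs_some res hu', Option.some.injEq] at hrs
    replace hrs : res u = res u' := congrArg Subtype.val hrs
    left
    refine ⟨u, hu, ?_⟩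
    have h1 := same_res hπ0 hπ1 hπ hp hpL res hres (u := u) (u' := u') (t := t) (d := d) (α := α)
      (β := β) (A := A) (H := H) (A3 := A3) (H3 := H3) hd hd1 (by rw [ev0]; exact hA)
      (by rw [ev0]; exact hH) (by rw [ev0]; exact hA3) (by rw [ev0]; exact hH3) hrs
      (cA t ht _ hu) (cA (t + d) ht' _ hu') (cA3 t ht _ hu) (cA3 (t + d) ht' _ hu')
      (cH t ht _ hu) (cH (t + d) ht' _ hu') (cH3 t ht _ hu) (cH3 (t + d) ht' _ hu')
    rw [ev, ev, ev, ev] at h1
    exact h1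
  · have hn : ∀ u : ball1 L, V t ≠ some (u : L) := fun u h => hcase ⟨u, h⟩
    rw [rs_none res hn] at hrs
    have hn' : ∀ u : ball1 L, V ((t + d : ball1 L) : L) ≠ some (u : L) := by
      intro u h
      rw [rs_some res h] at hrs
      exact absurd hrs (by simp)
    -- the quotient `(u - 1) / u`
    have quot : ∀ x : ball1 L, Transcendental K (x : L) → res (A3.eval x) ≠ 0 →
        (∀ u : ball1 L, V x ≠ some (u : L)) →
        ((V x = none ∨ ∃ u : L, V x = some u ∧ 1 < ‖u‖) ∧ ∃ ρ : ball1 L,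
          ‖(ρ : L) - 1‖ ≤ ‖π‖ ^ 3 ∧ ∃ γ : L, (ρ : L) * (α * (A.eval x : ball1 L)) =
            β * (H.eval x : ball1 L) * γ ^ p ^ 2) := by
      intro x hx hx3 hxn
      rcases hV : V (x : L) with _ | u
      · refine ⟨Or.inl rfl, 1, ?_, ?_⟩
        · push_cast
          rw [sub_self, norm_zero]
          positivity
        · obtain ⟨γ, hγ⟩ := cN x hx hV
          exact ⟨γ, by push_cast; rw [one_mul]; exact hγ⟩
      · have hu1 : 1 < ‖u‖ := by
          by_contra hcon
          push Not at hcon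
          exact hxn ⟨u, hcon⟩ hV
        have hu0 : u ≠ 0 := by
          rintro rfl
          rw [norm_zero] at hu1
          linarith
        have hu01 : u ≠ 1 := by
          rintro rfl
          rw [norm_one] at hu1
          linarith
        obtain ⟨γ3, hγ3⟩ := cA3 x hx u hV
        have hinv := cube_large hπ0 hπ1 hπ (norm_one_of res hres hx3) hγ3 hu1
        have hinv1 : ‖u⁻¹‖ ≤ 1 := hinv.trans (pow_le_one₀ hπp.le hπ1.le)
        have hρ1 : ‖1 - u⁻¹‖ ≤ 1 := sub2 norm_one.le hinv1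
        refine ⟨Or.inr ⟨u, rfl, hu1⟩, ⟨1 - u⁻¹, hρ1⟩, ?_, ?_⟩
        · have e : (1 - u⁻¹ : L) - 1 = -u⁻¹ := by ring
          change ‖(1 - u⁻¹ : L) - 1‖ ≤ _
          rw [e, norm_neg]
          exact hinv
        · obtain ⟨γ, hγ⟩ := cA x hx u hV hu0
          obtain ⟨γ', hγ'⟩ := cH x hx u hV hu01
          have hγ0 : γ ≠ 0 := by
            rintro rfl
            rw [zero_pow (pow_ne_zero _ hp.ne_zero), mul_zero] at hγ
            exact hu0 hγ
          refine ⟨γ' / γ, ?_⟩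
          change (1 - u⁻¹ : L) * _ = _
          have e1 : (1 - u⁻¹ : L) = (u - 1) / u := by field_simp
          have h2 : γ ^ p ^ 2 ≠ 0 := pow_ne_zero _ hγ0
          rw [e1, hγ', div_pow, div_mul_eq_mul_div, mul_div_assoc', div_eq_div_iff hu0 h2]
          calc β * (H.eval x : ball1 L) * γ' ^ p ^ 2 * (α * (A.eval x : ball1 L)) * γ ^ p ^ 2 =
                β * (H.eval x : ball1 L) * γ' ^ p ^ 2 *
                  (α * (A.eval x : ball1 L) * γ ^ p ^ 2) := by ring
            _ = _ := by rw [← hγ]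
    obtain ⟨hcase1, ρ, hρ, hc⟩ := quot t ht (by rw [ev0]; exact hA3) hn
    obtain ⟨-, ρ', hρ', hc'⟩ := quot (t + d) ht' (by rw [ev']; exact hA3) hn'
    right
    refine ⟨hcase1, ?_⟩
    have h1 := same_inf hπ0 hπ1 hπ hp hpL res hres (ρ := ρ) (ρ' := ρ') (t := t) (d := d)
      (α := α) (β := β) (A := A) (H := H) hd hd1 (by rw [ev0]; exact hA) (by rw [ev0]; exact hH)
      hρ hρ' hc hc' hα
    rw [ev, ev, ev, ev] at h1
    exact h1

end Pool.Agent.Helper39.FT.Loc
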