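import Pool.Agent.Helper39.FT.Loc3

/-!
# The local lemma at a reduction system
-/

set_option autoImplicit false
set_option linter.unusedSectionVars false

open Polynomial IsDedekindDomain NumberField

namespace Pool.Agent.Helper39.FT

open Pool.Agent.TH954 Pool.Agent.Y791.BF Pool.Agent.Y791.BC.Leg
open Pool.Agent.Y791.BS (nnf ultra proper charZero_compl exists_unif)

section norm

variable {K : Type} [Field K] (D : RSys K)

/-- the algebraic closure of the prime field -/
abbrev RSys.E : Type := AlgebraicClosure (ZMod D.p)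

/-- the elements of `B` in the completion -/
noncomputable def RSys.psi (m : ℕ) : D.B →+* ball1 (D.i m).Lv where
  toFun c := ⟨(D.i m).φ (c : K), (D.compat m c).choose⟩
  map_one' := Subtype.ext (by push_cast; exact map_one _)
  map_mul' a b := Subtype.ext (by push_cast; exact map_mul _ _ _)
  map_zero' := Subtype.ext (by push_cast; exact map_zero _)
  map_add' a b := Subtype.ext (by push_cast; exact map_add _ _ _)

lemma RSys.res_psi (m : ℕ) (c : D.B) : D.res m (D.psi m c) = algebraMap (ZMod D.p) D.E (D.r c) :=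
  (D.compat m c).choose_spec

lemma RSys.psi_coe (m : ℕ) (c : D.B) : ((D.psi m c : ball1 (D.i m).Lv) : (D.i m).Lv) =
    (D.i m).φ (c : K) := rfl

lemma RSys.map_res (m : ℕ) (A : D.B[X]) :
    (A.map (D.psi m)).map (D.res m) = (A.map D.r).map (algebraMap (ZMod D.p) D.E) := by
  rw [Polynomial.map_map, Polynomial.map_map]
  congr 1
  apply RingHom.ext
  intro c
  exact D.res_psi m c

lemma RSys.eval_psi (m : ℕ) (A : D.B[X]) (t : ball1 (D.i m).Lv) :
    (((A.map (D.psi m)).eval t : ball1 (D.i m).Lv) : (D.i m).Lv) =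
      aeval (t : (D.i m).Lv) (A.map D.B.subtype) := by
  rw [eval_map]
  have h1 : ((eval₂ (D.psi m) t A : ball1 (D.i m).Lv) : (D.i m).Lv) =
      (ball1 (D.i m).Lv).subtype (eval₂ (D.psi m) t A) := rfl
  rw [h1, hom_eval₂, aeval_def, eval₂_map]
  rfl

/-- an element of maximal size -/
lemma RSys.exists_max (s : Finset K) (hs : s.Nonempty) (h0 : ∀ x ∈ s, x ≠ 0) :
    ∃ c ∈ s, ∀ x ∈ s, x / c ∈ D.B := by
  classical
  induction hs using Finset.Nonempty.cons_induction with
  | singleton a =>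
    refine ⟨a, Finset.mem_singleton_self a, fun x hx => ?_⟩
    rw [Finset.mem_singleton] at hx
    rw [hx, div_self (h0 a (Finset.mem_singleton_self a))]
    exact one_mem _
  | cons a s has hs ih =>
    obtain ⟨c, hc, hcs⟩ := ih (fun x hx => h0 x (Finset.mem_cons_of_mem hx))
    have ha0 : a ≠ 0 := h0 a (Finset.mem_cons_self a s)
    have hc0 : c ≠ 0 := h0 c (Finset.mem_cons_of_mem hc)
    rcases D.val (a / c) with h | ⟨h, -⟩
    · refine ⟨c, Finset.mem_cons_of_mem hc, fun x hx => ?_⟩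
      rcases Finset.mem_cons.1 hx with rfl | hx
      · exact h
      · exact hcs x hx
    · refine ⟨a, Finset.mem_cons_self a s, fun x hx => ?_⟩
      rcases Finset.mem_cons.1 hx with rfl | hx
      · rw [div_self ha0]
        exact one_mem _
      · have e : x / a = (x / c) * (a / c)⁻¹ := by
          field_simp
        rw [e]
        exact mul_mem (hcs x hx) h

/-- normalisation of a polynomial -/
lemma RSys.exists_normal {A : K[X]} (hA : A ≠ 0) : ∃ (α : K) (A' : D.B[X]), α ≠ 0 ∧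
    A = C α * A'.map D.B.subtype ∧ A'.map D.r ≠ 0 := by
  classical
  obtain ⟨c, hc, hcs⟩ := D.exists_max (A.support.image A.coeff)
    ((nonempty_support_iff.2 hA).image _) (by
      intro x hx
      obtain ⟨n, hn, rfl⟩ := Finset.mem_image.1 hx
      exact mem_support_iff.1 hn)
  obtain ⟨n0, hn0, hcn⟩ := Finset.mem_image.1 hc
  have hc0 : c ≠ 0 := by
    rw [← hcn]
    exact mem_support_iff.1 hn0
  have hmem : ∀ n, (C c⁻¹ * A).coeff n ∈ D.B := by
    intro n
    rw [coeff_C_mul]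
    by_cases hn : n ∈ A.support
    · have := hcs _ (Finset.mem_image_of_mem A.coeff hn)
      rwa [div_eq_inv_mul] at this
    · rw [notMem_support_iff.1 hn, mul_zero]
      exact zero_mem _
  have hl : (C c⁻¹ * A) ∈ Polynomial.lifts D.B.subtype := by
    rw [Polynomial.lifts_iff_coeff_lifts]
    intro n
    exact ⟨⟨_, hmem n⟩, rfl⟩
  obtain ⟨A', hA'⟩ := hl
  have hA'' : A'.map D.B.subtype = C c⁻¹ * A := hA'
  refine ⟨c, A', hc0, ?_, ?_⟩
  · rw [hA'', ← mul_assoc, ← C_mul, mul_inv_cancel₀ hc0, C_1, one_mul]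
  · intro h
    have h1 : A'.coeff n0 = 1 := by
      apply Subtype.ext
      have h2 := congrArg (fun P : K[X] => P.coeff n0) hA''
      simp only [coeff_map, coeff_C_mul] at h2
      change ((A'.coeff n0 : D.B) : K) = _ at h2
      rw [h2, hcn, inv_mul_cancel₀ hc0]
      rfl
    have h2 := congrArg (fun P : (ZMod D.p)[X] => P.coeff n0) h
    simp only [coeff_map, h1, map_one, coeff_zero] at h2
    exact one_ne_zero h2

end norm

section red

variable {K : Type} [Field K] [CharZero K] [hess : Algebra.EssFiniteType ℚ K]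
  {F0 : Type} [Field F0] [Algebra (RatFunc K) F0] [CharZero F0] [CharZero (RatFunc K)]
  (q : ∀ i : PlF (RatFunc K), Plc (RatFunc K) F0 i.Lv)

/-- the element of `F0` given by a polynomial -/
noncomputable abbrev pF (F0 : Type) [Field F0] [Algebra (RatFunc K) F0] (A : K[X]) : F0 :=
  algebraMap (RatFunc K) F0 (algebraMap K[X] (RatFunc K) A)

/-- `A` is a class of `f` modulo `N`-th powers -/
def Cls (N : ℕ) (A : K[X]) (f : F0) : Prop := A ≠ 0 ∧ ∃ g : F0, f = pF F0 A * g ^ N

/-- the class of `f` gives the class of the value -/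
lemma cls_val {i : PlF K} {t : i.Lv} (ht : Transcendental K t) {N : ℕ} (hN : 0 < N) {A : K[X]}
    {f : F0} (h : Cls N A f) {u : i.Lv} (hu : (q (plT i ht)).val f u) :
    ∃ γ : i.Lv, u = aeval t A * γ ^ N := by
  obtain ⟨hA, g, hg⟩ := h
  obtain ⟨γ, hγ⟩ := kum_val (q (plT i ht)) hA hN hg hu
  exact ⟨γ, by rw [hγ, algT_poly]⟩

/-- infinite values -/
lemma cls_inf {i : PlF K} {t : i.Lv} (ht : Transcendental K t) {N : ℕ} (hN : 0 < N) {A H : K[X]}
    {x : F0} (hA : Cls N A x) (hH : Cls N H (x - 1)) (hn : x ∉ (q (plT i ht)).W) :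
    ∃ γ : i.Lv, aeval t A = aeval t H * γ ^ N := by
  obtain ⟨hA0, g, hg⟩ := hA
  obtain ⟨hH0, h, hh⟩ := hH
  set Q := q (plT i ht)
  have hx0 : x ≠ 0 := by
    rintro rfl
    exact hn (zero_mem _)
  have hg0 : g ^ N ≠ 0 := by
    intro h1
    rw [h1, mul_zero] at hg
    exact hx0 hg
  have v0 : Q.val x⁻¹ 0 := Plc.val_inv_of_notMem hn
  have v1 : Q.val ((x - 1) * x⁻¹) 1 := by
    have h1 := (Plc.val_one (pl := Q)).sub v0
    rw [sub_zero] at h1
    have e : (x - 1) * x⁻¹ = 1 - x⁻¹ := by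
      rw [sub_mul, mul_inv_cancel₀ hx0, one_mul]
    rw [e]
    exact h1
  have v2 := v1.mul (Plc.val_alg (pl := Q) (algebraMap K[X] (RatFunc K) A))
  rw [one_mul, algT_poly] at v2
  have e2 : (x - 1) * x⁻¹ * pF F0 A = pF F0 H * (h / g) ^ N := by
    rw [hh, div_pow]
    have e3 : x⁻¹ * pF F0 A = (g ^ N)⁻¹ := by
      have h3 : pF F0 A ≠ 0 := by
        intro h4
        rw [h4, zero_mul] at hg
        exact hx0 hg
      rw [hg, mul_inv, mul_right_comm, inv_mul_cancel₀ h3, one_mul]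
    rw [mul_assoc, e3, div_eq_mul_inv, mul_assoc]
  obtain ⟨γ, hγ⟩ := kum_val Q hH0 hN e2 v2
  exact ⟨γ, by rw [hγ, algT_poly]⟩

lemma vv_val {i : PlF K} {t : i.Lv} (ht : Transcendental K t) {x : F0} {u : i.Lv}
    (h : VV q x i t = some u) : (q (plT i ht)).val x u := (VV_some ht).1 h

/-- a polynomial with good reduction -/
def GoodP (D : RSys K) (A : K[X]) : Prop := ∃ A' : D.B[X], A'.map D.B.subtype = A ∧ A'.map D.r ≠ 0

include hess in
/-- **The local lemma at a reduction system.** -/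
theorem red (D : RSys K) {x : F0} {α β : K} {A H : D.B[X]} (hα : α ≠ 0)
    (hA0 : A.map D.r ≠ 0) (hH0 : H.map D.r ≠ 0)
    (hA : Cls (D.p ^ 2) (C α * A.map D.B.subtype) x)
    (hH : Cls (D.p ^ 2) (C β * H.map D.B.subtype) (x - 1)) {A3 H3 : K[X]}
    (hA3 : Cls 3 A3 x) (hH3 : Cls 3 H3 (x - 1)) (gA3 : GoodP D A3) (gH3 : GoodP D H3) :
    ∃ S : (ZMod D.p)[X], S ≠ 0 ∧ ∀ m : ℕ, 0 < m → ∀ a : D.E, a ^ D.p ^ m = a → aeval a S ≠ 0 →
      ∃ t : ball1 (D.i m).Lv, Transcendental K (t : (D.i m).Lv) ∧ D.res m t = a ∧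
      ((∃ u : ball1 (D.i m).Lv, VV q x (D.i m) t = some (u : (D.i m).Lv) ∧
        D.res m u * aeval a (derivative (A.map D.r)) * aeval a (H.map D.r) =
          (D.res m u - 1) * aeval a (derivative (H.map D.r)) * aeval a (A.map D.r)) ∨
      ((VV q x (D.i m) t = none ∨ ∃ u : (D.i m).Lv, VV q x (D.i m) t = some u ∧ 1 < ‖u‖) ∧
        aeval a (derivative (A.map D.r)) * aeval a (H.map D.r) =
          aeval a (derivative (H.map D.r)) * aeval a (A.map D.r))) := by
  have hKc : Countable K := countable_fg K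
  obtain ⟨A3', hA3', hA30⟩ := gA3
  obtain ⟨H3', hH3', hH30⟩ := gH3
  have hp := D.hp.out
  have hp2 : 0 < D.p ^ 2 := pow_pos hp.pos _
  refine ⟨A.map D.r * H.map D.r * (A3'.map D.r) * (H3'.map D.r),
    mul_ne_zero (mul_ne_zero (mul_ne_zero hA0 hH0) hA30) hH30, fun m hm a ha hS => ?_⟩
  rw [map_mul, map_mul, map_mul] at hS
  have s4 : aeval a (H3'.map D.r) ≠ 0 := fun h => hS (by rw [h, mul_zero])
  have s3 : aeval a (A3'.map D.r) ≠ 0 := fun h => hS (by rw [h, mul_zero, zero_mul])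
  have s2 : aeval a (H.map D.r) ≠ 0 := fun h => hS (by rw [h, mul_zero, zero_mul, zero_mul])
  have s1 : aeval a (A.map D.r) ≠ 0 := fun h => hS (by rw [h, zero_mul, zero_mul, zero_mul])
  obtain ⟨a0, ha0⟩ := (D.res_range m hm a).2 ha
  let i := D.i m
  have hpL : ‖((D.p : ℕ) : i.Lv)‖ < 1 := by
    have h1 : D.res m ((D.p : ℕ) : ball1 i.Lv) = 0 := by
      rw [map_natCast]
      exact CharP.cast_eq_zero _ D.p
    have h2 := (D.res_zero m _).1 h1
    have h3 : ((((D.p : ℕ) : ball1 i.Lv)) : i.Lv) = ((D.p : ℕ) : i.Lv) := by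
      norm_cast
    rw [h3] at h2
    exact h2
  obtain ⟨π, hπ0, hπ1, hπ⟩ := exists_unif i.v
  have hϖ0 : algebraMap i.L i.Lv π ≠ 0 := (_root_.map_ne_zero _).2 hπ0
  have hdense : ∀ (x : i.Lv) (ε : ℝ), 0 < ε → ∃ t, Transcendental K t ∧ ‖t - x‖ < ε := by
    intro x ε hε
    let inst1 : NontriviallyNormedField i.Lv := nnf i.v
    have hul : IsUltrametricDist i.Lv := ultra i.v
    have hps : ProperSpace i.Lv := proper i.v
    have hch : CharZero i.Lv := charZero_compl i.v
    obtain ⟨t, h1, h2⟩ := (Pool.Agent.Y791.BC.Rig.dense_trans (K := K) (L := i.Lv)).exists_mem_open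
      (Metric.isOpen_ball (x := x) (ε := ε)) ⟨x, Metric.mem_ball_self hε⟩
    rw [Metric.mem_ball, dist_eq_norm] at h2
    exact ⟨t, h1, h2⟩
  have hfin : (Set.range (D.res m)).Finite := by
    have h1 : Set.range (D.res m) ⊆ {x : D.E | x ^ D.p ^ m = x} := by
      rintro x ⟨y, hy⟩
      exact (D.res_range m hm x).1 ⟨y, hy⟩
    refine Set.Finite.subset ?_ h1
    have h2 : (X ^ D.p ^ m - X : D.E[X]) ≠ 0 := by
      have h3 : 1 < D.p ^ m := one_lt_pow₀ hp.one_lt hm.ne'
      exact FiniteField.X_pow_card_sub_X_ne_zero D.E h3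
    refine ((X ^ D.p ^ m - X : D.E[X]).rootSet_finite D.E).subset ?_
    intro x hx
    rw [mem_rootSet]
    refine ⟨h2, ?_⟩
    rw [map_sub, map_pow, aeval_X, sub_eq_zero]
    exact hx
  have evr : ∀ P : D.B[X], D.res m ((P.map (D.psi m)).eval a0) = aeval a (P.map D.r) := by
    intro P
    rw [Loc.res_eval (D.res m) (D.res_zero m), D.map_res, ha0, eval_map, ← aeval_def]
  have hmapP : ∀ (t : i.Lv) (c : K) (P : D.B[X]),
      aeval t (C c * P.map D.B.subtype) = i.φ c * aeval t (P.map D.B.subtype) := by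
    intro t c P
    rw [map_mul, aeval_C]
    rfl
  obtain ⟨t, ht, hta, h⟩ := Loc.loc_main (L := i.Lv) hϖ0 hπ1 hπ hp hpL (D.res m) (D.res_zero m)
    hdense hfin (VV q x i) a0 (α := i.φ α) (β := i.φ β) ((_root_.map_ne_zero _).2 hα)
    (A := A.map (D.psi m)) (H := H.map (D.psi m)) (A3 := A3'.map (D.psi m))
    (H3 := H3'.map (D.psi m)) (by rw [evr]; exact s1) (by rw [evr]; exact s2)
    (by rw [evr]; exact s3) (by rw [evr]; exact s4)
    (fun t ht u hu _ => by
      obtain ⟨γ, hγ⟩ := cls_val q ht hp2 hA (vv_val q ht hu)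
      exact ⟨γ, by rw [D.eval_psi, ← hmapP]; exact hγ⟩)
    (fun t ht u hu _ => by
      obtain ⟨γ, hγ⟩ := cls_val q ht hp2 hH ((vv_val q ht hu).sub Plc.val_one)
      exact ⟨γ, by rw [D.eval_psi, ← hmapP]; exact hγ⟩)
    (fun t ht hn => by
      obtain ⟨γ, hγ⟩ := cls_inf q ht hp2 hA hH ((VV_none ht).1 hn)
      exact ⟨γ, by rw [D.eval_psi, D.eval_psi, ← hmapP, ← hmapP]; exact hγ⟩)
    (fun t ht u hu => by
      obtain ⟨γ, hγ⟩ := cls_val q ht (by norm_num) hA3 (vv_val q ht hu)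
      exact ⟨γ, by rw [D.eval_psi, hA3']; exact hγ⟩)
    (fun t ht u hu => by
      obtain ⟨γ, hγ⟩ := cls_val q ht (by norm_num) hH3 ((vv_val q ht hu).sub Plc.val_one)
      exact ⟨γ, by rw [D.eval_psi, hH3']; exact hγ⟩)
  refine ⟨t, ht, hta.trans ha0, ?_⟩
  have ev2 : ∀ P : D.B[X], ((P.map (D.psi m)).map (D.res m)).eval (D.res m a0) =
      aeval a (P.map D.r) := by
    intro P
    rw [← Loc.res_eval (D.res m) (D.res_zero m), evr]
  have ev3 : ∀ P : D.B[X], ((derivative (P.map (D.psi m))).map (D.res m)).eval (D.res m a0) =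
      aeval a (derivative (P.map D.r)) := by
    intro P
    rw [derivative_map, ev2, derivative_map]
  rw [ev2, ev2, ev3, ev3] at h
  exact h

end red

end Pool.Agent.Helper39.FT
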