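import Pool.Agent.Helper39.FT.Red

/-!
# Functions with a separable reduction
-/

set_option autoImplicit false
set_option linter.unusedSectionVars false

open Polynomial IsDedekindDomain NumberField

namespace Pool.Agent.Helper39.FT

open Pool.Agent.TH954 Pool.Agent.Y791.BF Pool.Agent.Y791.BC.Leg

variable {K : Type} [Field K] [CharZero K] [hess : Algebra.EssFiniteType ℚ K]
  {F0 : Type} [Field F0] [Algebra (RatFunc K) F0] [CharZero F0] [CharZero (RatFunc K)]
  (q : ∀ i : PlF (RatFunc K), Plc (RatFunc K) F0 i.Lv)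

/-- The values of `y` at suitable points have the residues `U / V`, with a nonzero derivative. -/
def Good (D : RSys K) (y : F0) : Prop :=
  ∃ U V S : (ZMod D.p)[X], V ≠ 0 ∧ S ≠ 0 ∧ derivative U * V - U * derivative V ≠ 0 ∧
    ∀ m : ℕ, 0 < m → ∀ a : D.E, a ^ D.p ^ m = a → aeval a S ≠ 0 →
      ∃ t : ball1 (D.i m).Lv, Transcendental K (t : (D.i m).Lv) ∧ D.res m t = a ∧
        ∃ u : ball1 (D.i m).Lv, VV q y (D.i m) t = some (u : (D.i m).Lv) ∧
          aeval a V * D.res m u = aeval a U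

/-- the variable -/
noncomputable abbrev TF (F0 : Type) [Field F0] [Algebra (RatFunc K) F0] : F0 := pF F0 (X : K[X])

lemma vv_add {D : RSys K} {m : ℕ} {t : ball1 (D.i m).Lv}
    (ht : Transcendental K (t : (D.i m).Lv)) {x : F0} {u : ball1 (D.i m).Lv}
    (hu : VV q x (D.i m) t = some (u : (D.i m).Lv)) :
    VV q (x + TF (K := K) F0) (D.i m) t = some ((u + t : ball1 (D.i m).Lv) : (D.i m).Lv) := by
  rw [VV_some ht] at hu ⊢
  have h1 := hu.add (Plc.val_alg (pl := q (plT (D.i m) ht)) (algebraMap K[X] (RatFunc K) X))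
  rw [algT_poly, aeval_X] at h1
  exact h1

lemma vv_inv {D : RSys K} {m : ℕ} {t : ball1 (D.i m).Lv}
    (ht : Transcendental K (t : (D.i m).Lv)) {x : F0}
    (h : VV q x (D.i m) t = none ∨ ∃ u : (D.i m).Lv, VV q x (D.i m) t = some u ∧ 1 < ‖u‖) :
    ∃ u : ball1 (D.i m).Lv, VV q x⁻¹ (D.i m) t = some (u : (D.i m).Lv) ∧ D.res m u = 0 := by
  rcases h with h | ⟨u, hu, h1⟩
  · rw [VV_none ht] at h
    refine ⟨0, ?_, map_zero _⟩
    rw [VV_some ht]
    exact Plc.val_inv_of_notMem h
  · have hu0 : u ≠ 0 := by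
      rintro rfl
      rw [norm_zero] at h1
      linarith
    have h2 : ‖u⁻¹‖ < 1 := by
      rw [norm_inv]
      exact inv_lt_one_of_one_lt₀ h1
    refine ⟨⟨u⁻¹, h2.le⟩, ?_, (D.res_zero m _).2 h2⟩
    rw [VV_some ht] at hu ⊢
    exact hu.inv hu0

include hess in
/-- a function with a separable reduction, if the class of `x` is separable -/
theorem sel1 (D : RSys K) {x : F0} {α β : K} {A H : D.B[X]} (hα : α ≠ 0)
    (hA0 : A.map D.r ≠ 0) (hH0 : H.map D.r ≠ 0) (hsep : derivative (A.map D.r) ≠ 0)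
    (hA : Cls (D.p ^ 2) (C α * A.map D.B.subtype) x)
    (hH : Cls (D.p ^ 2) (C β * H.map D.B.subtype) (x - 1)) {A3 H3 : K[X]}
    (hA3 : Cls 3 A3 x) (hH3 : Cls 3 H3 (x - 1)) (gA3 : GoodP D A3) (gH3 : GoodP D H3) :
    Good q D x ∨ Good q D (x + TF (K := K) F0) ∨ Good q D (x⁻¹ + TF (K := K) F0) := by
  obtain ⟨S, hS0, hS⟩ := red q D hα hA0 hH0 hA hH hA3 hH3 gA3 gH3
  set P : (ZMod D.p)[X] := derivative (A.map D.r) * H.map D.r with hP
  set Q : (ZMod D.p)[X] := derivative (H.map D.r) * A.map D.r with hQ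
  have hP0 : P ≠ 0 := mul_ne_zero hsep hH0
  by_cases hPQ : P = Q
  · -- infinite values
    right
    right
    have hQ0 : Q ≠ 0 := hPQ ▸ hP0
    refine ⟨X, 1, S * Q, one_ne_zero, mul_ne_zero hS0 hQ0, ?_, fun m hm a ha haS => ?_⟩
    · simp
    · rw [map_mul] at haS
      obtain ⟨t, ht, hta, h⟩ := hS m hm a ha (left_ne_zero_of_mul haS)
      have hQa : aeval a Q ≠ 0 := right_ne_zero_of_mul haS
      have h' : VV q x (D.i m) t = none ∨
          ∃ u : (D.i m).Lv, VV q x (D.i m) t = some u ∧ 1 < ‖u‖ := by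
        rcases h with ⟨u, -, h⟩ | h
        · exfalso
          apply hQa
          have e1 : aeval a P = aeval a Q := by rw [hPQ]
          rw [hP, hQ, map_mul, map_mul] at e1
          rw [hQ, map_mul]
          linear_combination h - D.res m u * e1
        · exact h.1
      obtain ⟨u, hu, hu0⟩ := vv_inv q ht h'
      refine ⟨t, ht, hta, u + t, vv_add q ht hu, ?_⟩
      rw [map_one, one_mul, map_add, hu0, zero_add, aeval_X, hta]
  · -- finite values
    have hV : Q - P ≠ 0 := fun h => hPQ (sub_eq_zero.1 h).symm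
    have key : ∀ m : ℕ, 0 < m → ∀ a : D.E, a ^ D.p ^ m = a → aeval a (S * (Q - P)) ≠ 0 →
        ∃ t : ball1 (D.i m).Lv, Transcendental K (t : (D.i m).Lv) ∧ D.res m t = a ∧
        ∃ u : ball1 (D.i m).Lv, VV q x (D.i m) t = some (u : (D.i m).Lv) ∧
          aeval a (Q - P) * D.res m u = aeval a Q := by
      intro m hm a ha haS
      rw [map_mul] at haS
      obtain ⟨t, ht, hta, h⟩ := hS m hm a ha (left_ne_zero_of_mul haS)
      refine ⟨t, ht, hta, ?_⟩
      rcases h with ⟨u, hu, h⟩ | h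
      · refine ⟨u, hu, ?_⟩
        rw [map_sub, hP, hQ, map_mul, map_mul]
        linear_combination -h
      · exfalso
        apply right_ne_zero_of_mul haS
        rw [map_sub, hP, hQ, map_mul, map_mul, ← h.2, sub_self]
    by_cases hW : derivative Q * (Q - P) - Q * derivative (Q - P) = 0
    · right
      left
      refine ⟨Q + X * (Q - P), Q - P, S * (Q - P), hV, mul_ne_zero hS0 hV, ?_,
        fun m hm a ha haS => ?_⟩
      · have e : ∀ Q V : (ZMod D.p)[X], derivative (Q + X * V) * V - (Q + X * V) * derivative V =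
            (derivative Q * V - Q * derivative V) + V ^ 2 := by
          intro Q V
          rw [derivative_add, derivative_mul, derivative_X]
          ring
        rw [e, hW, zero_add]
        exact pow_ne_zero 2 hV
      · obtain ⟨t, ht, hta, u, hu, h⟩ := key m hm a ha haS
        refine ⟨t, ht, hta, u + t, vv_add q ht hu, ?_⟩
        rw [map_add (D.res m), mul_add, h, hta, map_add (aeval a) Q, map_mul (aeval a) X, aeval_X,
          mul_comm a]
    · left
      exact ⟨Q, Q - P, S * (Q - P), hV, mul_ne_zero hS0 hV, hW, key⟩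

/-- polynomials with good coefficients have a good reduction -/
lemma goodP_of (D : RSys K) {A : K[X]} (hA : A ≠ 0)
    (h : ∀ n, A.coeff n ≠ 0 → ∃ h : A.coeff n ∈ D.B, D.r ⟨A.coeff n, h⟩ ≠ 0) : GoodP D A := by
  have hmem : ∀ n, A.coeff n ∈ D.B := by
    intro n
    by_cases hn : A.coeff n = 0
    · rw [hn]
      exact zero_mem _
    · exact (h n hn).choose
  have hl : A ∈ Polynomial.lifts D.B.subtype := by
    rw [Polynomial.lifts_iff_coeff_lifts]
    intro n
    exact ⟨⟨_, hmem n⟩, rfl⟩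
  obtain ⟨A', hA'⟩ := hl
  have hA'' : A'.map D.B.subtype = A := hA'
  refine ⟨A', hA'', fun h0 => ?_⟩
  obtain ⟨n, hn⟩ : ∃ n, A.coeff n ≠ 0 := by
    by_contra hcon
    push Not at hcon
    exact hA (Polynomial.ext (by simpa using hcon))
  obtain ⟨hm, hr⟩ := h n hn
  apply hr
  have h1 := congrArg (fun P : (ZMod D.p)[X] => P.coeff n) h0
  simp only [coeff_map, coeff_zero] at h1
  rw [← h1]
  congr 1
  apply Subtype.ext
  have h2 := congrArg (fun P : K[X] => P.coeff n) hA''
  simp only [coeff_map] at h2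
  exact h2.symm

/-- `D` is good for the finite set `Z` -/
def GoodZ (D : RSys K) (Z : Finset K) : Prop :=
  ∀ z ∈ Z, z ≠ 0 → ∃ h : z ∈ D.B, D.r ⟨z, h⟩ ≠ 0

open scoped Classical in
/-- the coefficients -/
noncomputable def coef (A : K[X]) : Finset K := A.support.image A.coeff

lemma goodP_coef (D : RSys K) {A : K[X]} (hA : A ≠ 0) {Z : Finset K} (hZ : coef A ⊆ Z)
    (h : GoodZ D Z) : GoodP D A := by
  classical
  refine goodP_of D hA fun n hn => h _ (hZ ?_) hn
  exact Finset.mem_image_of_mem A.coeff (mem_support_iff.2 hn)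

/-- the candidates -/
noncomputable def cand (x : F0) : Fin 2 × Fin 3 → F0 := fun b =>
  match b with
  | (0, 0) => x
  | (0, 1) => x + TF (K := K) F0
  | (0, 2) => x⁻¹ + TF (K := K) F0
  | (1, 0) => x * TF (K := K) F0
  | (1, 1) => x * TF (K := K) F0 + TF (K := K) F0
  | (1, 2) => (x * TF (K := K) F0)⁻¹ + TF (K := K) F0

include hess in
/-- one of the candidates has a separable reduction -/
theorem sel (hF : KumF K F0) {x : F0} (hx : Transcendental (RatFunc K) x) :
    ∃ Z : Finset K, ∀ D : RSys K, GoodZ D Z → ∃ b, Good q D (cand (K := K) x b) := by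
  classical
  have hX0 : TF (K := K) F0 ≠ 0 := by
    refine (_root_.map_ne_zero _).2 ?_
    exact (map_ne_zero_iff _ (RatFunc.algebraMap_injective K)).2 X_ne_zero
  have halgT : IsAlgebraic (RatFunc K) (TF (K := K) F0) := isAlgebraic_algebraMap _
  have hx0 : x ≠ 0 := by
    rintro rfl
    exact hx isAlgebraic_zero
  have hx1 : x - 1 ≠ 0 := by
    intro h
    rw [sub_eq_zero] at h
    rw [h] at hx
    exact hx isAlgebraic_one
  set y : F0 := x * TF (K := K) F0 with hy
  have hyt : Transcendental (RatFunc K) y := by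
    intro h
    apply hx
    have e : x = y * (TF (K := K) F0)⁻¹ := by
      rw [hy, mul_assoc, mul_inv_cancel₀ hX0, mul_one]
    rw [e]
    exact h.mul halgT.inv
  have hy0 : y ≠ 0 := mul_ne_zero hx0 hX0
  have hy1 : y - 1 ≠ 0 := by
    intro h
    rw [sub_eq_zero] at h
    rw [h] at hyt
    exact hyt isAlgebraic_one
  have cls : ∀ f : F0, f ≠ 0 → ∀ N : ℕ, 0 < N → ∃ A : K[X], Cls N A f := by
    intro f hf N hN
    obtain ⟨c, g, hc, h⟩ := hF f hf N hN
    exact ⟨c, hc, g, h⟩
  obtain ⟨A3, hA3⟩ := cls x hx0 3 (by norm_num)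
  obtain ⟨H3, hH3⟩ := cls (x - 1) hx1 3 (by norm_num)
  obtain ⟨A3', hA3'⟩ := cls y hy0 3 (by norm_num)
  obtain ⟨H3', hH3'⟩ := cls (y - 1) hy1 3 (by norm_num)
  refine ⟨coef A3 ∪ coef H3 ∪ coef A3' ∪ coef H3', fun D hD => ?_⟩
  have g1 := goodP_coef D hA3.1 (Z := coef A3 ∪ coef H3 ∪ coef A3' ∪ coef H3')
    (fun z hz => by simp [hz]) hD
  have g2 := goodP_coef D hH3.1 (Z := coef A3 ∪ coef H3 ∪ coef A3' ∪ coef H3')
    (fun z hz => by simp [hz]) hD
  have g3 := goodP_coef D hA3'.1 (Z := coef A3 ∪ coef H3 ∪ coef A3' ∪ coef H3')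
    (fun z hz => by simp [hz]) hD
  have g4 := goodP_coef D hH3'.1 (Z := coef A3 ∪ coef H3 ∪ coef A3' ∪ coef H3')
    (fun z hz => by simp [hz]) hD
  have hp2 : 0 < D.p ^ 2 := pow_pos D.hp.out.pos _
  obtain ⟨A, hA⟩ := cls x hx0 _ hp2
  obtain ⟨H, hH⟩ := cls (x - 1) hx1 _ hp2
  obtain ⟨H', hH'⟩ := cls (y - 1) hy1 _ hp2
  obtain ⟨α, A1, hα, eA, hA1⟩ := D.exists_normal hA.1
  obtain ⟨β, H1, hβ, eH, hH1⟩ := D.exists_normal hH.1
  obtain ⟨β', H1', hβ', eH', hH1'⟩ := D.exists_normal hH'.1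
  rw [eA] at hA
  rw [eH] at hH
  rw [eH'] at hH'
  by_cases hsep : derivative (A1.map D.r) = 0
  · -- the class of `x T` is separable
    have hA' : Cls (D.p ^ 2) (C α * (X * A1).map D.B.subtype) y := by
      obtain ⟨h0, g, hg⟩ := hA
      have e : C α * (X * A1).map D.B.subtype = (C α * A1.map D.B.subtype) * X := by
        rw [Polynomial.map_mul, map_X]
        ring
      refine ⟨?_, g, ?_⟩
      · rw [e]
        exact mul_ne_zero h0 X_ne_zero
      · rw [e, hy, hg]
        simp only [pF, TF, map_mul]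
        ring
    have hA10 : (X * A1).map D.r ≠ 0 := by
      rw [Polynomial.map_mul, map_X]
      exact mul_ne_zero X_ne_zero hA1
    have hsep' : derivative ((X * A1).map D.r) ≠ 0 := by
      rw [Polynomial.map_mul, map_X, derivative_mul, derivative_X, hsep, mul_zero, add_zero,
        one_mul]
      exact hA1
    rcases sel1 q D hα hA10 hH1' hsep' hA' hH' hA3' hH3' g3 g4 with h | h | h
    · exact ⟨(1, 0), h⟩
    · exact ⟨(1, 1), h⟩
    · exact ⟨(1, 2), h⟩
  · rcases sel1 q D hα hA1 hH1 hsep hA hH hA3 hH3 g1 g2 with h | h | h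
    · exact ⟨(0, 0), h⟩
    · exact ⟨(0, 1), h⟩
    · exact ⟨(0, 2), h⟩

end Pool.Agent.Helper39.FT
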